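import Pool.Agent.helper75.AU.SpecW

/-!
# Project au, module QWA: change of model
-/

namespace Pool.Agent.helper53.AU

open scoped Classical IntermediateField
open Polynomial (aeval)

theorem QWA : QWA_stmt := by
  intro k F _ _ _ g x y h
  have hx0 : x ≠ 0 := by
    intro h0
    apply h.tr
    rw [h0]
    exact isAlgebraic_zero
  have hxi : (x + 1) / x - 1 = x⁻¹ := by
    field_simp
    ring
  refine ⟨?_, ?_, ?_⟩
  · intro halg
    apply h.tr
    have h1 : IsAlgebraic k ((x + 1) / x - 1) := halg.sub isAlgebraic_one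
    rw [hxi] at h1
    have h2 := h1.inv
    rwa [inv_inv] at h2
  · have hne : x ^ (2 * g + 2) ≠ 0 := pow_ne_zero _ hx0
    have e1 : y ^ 2 = (x + 1) ^ (2 * g + 2) - x ^ (2 * g + 2) := by
      rw [h.eq]
      simp only [map_sub, map_pow, map_add, Polynomial.aeval_X, map_one]
    have e2 : aeval ((x + 1) / x) (Polynomial.X ^ (2 * g + 2) - 1 : Polynomial k) =
        ((x + 1) / x) ^ (2 * g + 2) - 1 := by
      simp only [map_sub, map_pow, Polynomial.aeval_X, map_one]
    rw [e2, div_pow, e1, div_pow, ← pow_mul, show (g + 1) * 2 = 2 * g + 2 by ring, sub_div, div_self hne]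
  · rw [eq_top_iff, ← h.gen, IntermediateField.adjoin_le_iff]
    set K := IntermediateField.adjoin k ({(x + 1) / x, y / x ^ (g + 1)} : Set F) with hK
    have h1 : (x + 1) / x ∈ K := IntermediateField.subset_adjoin k _ (by simp)
    have h2 : y / x ^ (g + 1) ∈ K := IntermediateField.subset_adjoin k _ (by simp)
    have hx : x ∈ K := by
      have h3 : ((x + 1) / x - 1)⁻¹ ∈ K := inv_mem (sub_mem h1 (one_mem K))
      rwa [hxi, inv_inv] at h3
    have hy : y ∈ K := by
      have h3 : y / x ^ (g + 1) * x ^ (g + 1) ∈ K := mul_mem h2 (pow_mem hx _)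
      rwa [div_mul_cancel₀ _ (pow_ne_zero _ hx0)] at h3
    intro z hz
    rcases hz with rfl | hz
    · exact hx
    · rw [Set.mem_singleton_iff] at hz
      rw [hz]
      exact hy

end Pool.Agent.helper53.AU
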