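import Pool.Agent.helper93.AU.NT5
import Pool.Agent.helper53.AU.Defs

/-!
au:NT: there are infinitely many special primes.
-/

namespace Pool.Agent.helper93.AU

open Finset Real ArithmeticFunction
open Pool.Agent.helper39.MT
open Pool.Agent.helper53.AU (Special)

open Classical in
/-- there are special primes beyond every bound -/
lemma exists_special (N₀ : ℕ) : ∃ l : ℕ, N₀ < l ∧ Special l := by
  obtain ⟨C₀, c, hc, L₁, hmain⟩ := sieve_main
  obtain ⟨C1, hB1⟩ := B1_le
  obtain ⟨C3, L3, hB3⟩ := B3_le
  -- choice of the scale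
  obtain ⟨N, hN⟩ := exists_nat_ge (max (max (max L₁ L3) (max 6 (2 * ((N₀ : ℝ) + 1001))))
    (((C1 + 200 + C3) / c) ^ 2 + 1))
  obtain ⟨Ln, hLn, hgood⟩ := good_scales C₀ N
  set L : ℝ := (Ln : ℝ) with hLdef
  have hNL : (N : ℝ) ≤ L := by rw [hLdef]; exact_mod_cast hLn
  have hbig := hN.trans hNL
  have hL1 : L₁ ≤ L := le_trans (le_trans (le_max_left _ _) (le_trans (le_max_left _ _) (le_max_left _ _))) hbig
  have hL3 : L3 ≤ L := le_trans (le_trans (le_max_right _ _) (le_trans (le_max_left _ _) (le_max_left _ _))) hbig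
  have hL6 : 6 ≤ L := le_trans (le_trans (le_max_left _ _) (le_trans (le_max_right _ _) (le_max_left _ _))) hbig
  have hL7 : 2 * ((N₀ : ℝ) + 1001) ≤ L := le_trans (le_trans (le_max_right _ _)
    (le_trans (le_max_right _ _) (le_max_left _ _))) hbig
  have hL8 : ((C1 + 200 + C3) / c) ^ 2 + 1 ≤ L := le_trans (le_max_right _ _) hbig
  have hL0 : 0 < L := by linarith
  obtain ⟨z, hz, hlow⟩ := hmain L hL1 hgood
  by_contra hcon
  push Not at hcon
  -- the pointwise bound
  have hpt : ∀ n ∈ AL L, ww L n * ∏ p ∈ Nat.primesLE z, (1 - hh p n) ≤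
      (if n ∈ (AL L).filter (fun n => ¬ n.Prime) then ww L n else 0) +
      ((if n ∈ B2 L z then ww L n else 0) + (if n ∈ B3 L then ww L n else 0)) := by
    intro n hn
    have hw := ww_nonneg L n
    have hprod1 : ∏ p ∈ Nat.primesLE z, (1 - hh p n) ≤ 1 :=
      Finset.prod_le_one (fun p _ => by have := hh_le_one p n; linarith)
        (fun p _ => by have := hh_nonneg p n; linarith)
    have hle : ww L n * ∏ p ∈ Nat.primesLE z, (1 - hh p n) ≤ ww L n := by
      calc ww L n * ∏ p ∈ Nat.primesLE z, (1 - hh p n) ≤ ww L n * 1 :=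
            mul_le_mul_of_nonneg_left hprod1 hw
        _ = ww L n := mul_one _
    have i1 : 0 ≤ (if n ∈ (AL L).filter (fun n => ¬ n.Prime) then ww L n else 0) := by
      split_ifs <;> linarith
    have i2 : 0 ≤ (if n ∈ B2 L z then ww L n else 0) := by split_ifs <;> linarith
    have i3 : 0 ≤ (if n ∈ B3 L then ww L n else 0) := by split_ifs <;> linarith
    by_cases hp : n.Prime
    swap
    · have : n ∈ (AL L).filter (fun n => ¬ n.Prime) := Finset.mem_filter.mpr ⟨hn, hp⟩
      rw [if_pos this] at i1 ⊢
      linarith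
    by_cases h2 : n ∈ B2 L z
    · rw [if_pos h2] at i2 ⊢
      linarith
    by_cases h3 : n ∈ B3 L
    · rw [if_pos h3] at i3 ⊢
      linarith
    -- then the product or the weight vanishes
    have hzero : ww L n * ∏ p ∈ Nat.primesLE z, (1 - hh p n) ≤ 0 := by
      by_contra hpos
      push Not at hpos
      have hnI : n ∈ Ioc 0 (NL L) := (Finset.mem_filter.mp hn).1
      have hmod : n ≡ 67 [MOD 120] := (Finset.mem_filter.mp hn).2
      have hn0 : 0 < n := (mem_Ioc.mp hnI).1
      have hwne : ww L n ≠ 0 := by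
        intro h
        rw [h, zero_mul] at hpos
        exact lt_irrefl _ hpos
      have hgt : Real.exp (L / 2) < n := by
        by_contra hcon2
        push Not at hcon2
        exact hwne (ww_zero hL0 hn0 hcon2)
      have hgt2 : N₀ + 1001 < n := by
        have h4 : (N₀ : ℝ) + 1001 < n := by
          have h5 := Real.add_one_le_exp (L / 2)
          linarith
        exact_mod_cast h4
      have hmod' : n % 120 = 67 := hmod
      have hno : ∀ p : ℕ, p.Prime → 7 ≤ p → p ≤ z → ¬ (p ∣ n + 1 ∨ p ∣ n + 2) := by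
        intro p hpp h7 hpz hdv
        have h4 : ∏ p ∈ Nat.primesLE z, (1 - hh p n) = 0 := by
          refine Finset.prod_eq_zero (Nat.mem_primesLE.mpr ⟨hpz, hpp⟩) ?_
          unfold hh
          rw [if_pos ⟨h7, hdv⟩, sub_self]
        rw [h4, mul_zero] at hpos
        exact lt_irrefl _ hpos
      refine hcon n (by omega) ⟨hp, by omega, by omega, by omega, by omega, ?_, ?_⟩
      · -- condition (R)
        intro r i hr h5 hi h3i hdvd
        by_contra hneg
        have hor : r ∣ n + 1 ∨ r ∣ n + 2 := by
          by_contra h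
          push Not at h
          exact hneg h
        have hr7 : 7 ≤ r := by
          by_contra h7
          have h56 : r = 5 ∨ r = 6 := by omega
          rcases h56 with rfl | rfl
          · omega
          · exact absurd hr (by norm_num)
        have hrz : z < r := by
          by_contra hrz
          exact hno r hr hr7 (not_lt.mp hrz) hor
        exact h2 (Finset.mem_filter.mpr ⟨hn, i, r, hi, hr, hrz, h3i, hdvd, hor⟩)
      · -- condition (N)
        intro a d' m e' h' u k _ h1 hd' hm1 hm3 he' hh' hu heq hdvd _ hk hkm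
        by_contra hk1
        exact h3 (Finset.mem_filter.mpr ⟨hn, hp, a, d', m, e', h', u, k, h1, hd', hm1, hm3, he', hh',
          hu, heq, hdvd, hk, hkm, hk1⟩)
    linarith
  have hsum := Finset.sum_le_sum hpt
  rw [Finset.sum_add_distrib, Finset.sum_add_distrib, ← Finset.sum_filter, ← Finset.sum_filter,
    ← Finset.sum_filter] at hsum
  have e1 : (AL L).filter (fun n => n ∈ (AL L).filter (fun n => ¬ n.Prime)) =
      (AL L).filter (fun n => ¬ n.Prime) := by
    ext n; simp only [Finset.mem_filter]; tauto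
  have e2 : (AL L).filter (fun n => n ∈ B2 L z) = B2 L z := by
    ext n
    rw [Finset.mem_filter]
    exact ⟨fun h => h.2, fun h => ⟨(Finset.mem_filter.mp h).1, h⟩⟩
  have e3 : (AL L).filter (fun n => n ∈ B3 L) = B3 L := by
    ext n
    rw [Finset.mem_filter]
    exact ⟨fun h => h.2, fun h => ⟨(Finset.mem_filter.mp h).1, h⟩⟩
  rw [e1, e2, e3] at hsum
  have b1 := hB1 L hL0
  have b2 := B2_le hL6 hz
  have b3 := hB3 L hL3
  have htot : c * √L ≤ C1 + 200 + C3 := by linarith
  have h9 : √L ≤ (C1 + 200 + C3) / c := by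
    rw [le_div_iff₀ hc]
    linarith
  have h10 : L ≤ ((C1 + 200 + C3) / c) ^ 2 := by
    rw [← Real.sq_sqrt hL0.le]
    exact pow_le_pow_left₀ (Real.sqrt_nonneg _) h9 2
  linarith

/-- **NT**: there are infinitely many special primes. -/
theorem NT : {l : ℕ | Special l}.Infinite := by
  refine Set.infinite_of_forall_exists_gt fun N => ?_
  obtain ⟨l, h1, h2⟩ := exists_special N
  exact ⟨l, h2, h1⟩

end Pool.Agent.helper93.AU
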