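import Pool.Agent.helper53.AU.SpecG2

/-!
# Project au, module P1: in the class PL all involutions are conjugate and `A` contains one
-/

namespace Pool.Agent.helper53.AU

open scoped Classical

theorem P1_twoPart_le {L : Type} [Group L] (A : Subgroup L) : twoPart A ≤ A :=
  (Subgroup.closure_le A).2 fun _ h => h.1

/-- a homomorphism onto the signs contradicts `NoQuot` -/
theorem P1_nosign {L : Type} [Group L] [Finite L] (h : NoQuot L) (f : L →* ℤˣ) (s : L) :
    f s ≠ -1 := by
  intro hs
  have hsurj : Function.Surjective f := by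
    intro u
    rcases Int.units_eq_one_or u with h1 | h1
    · exact ⟨1, by rw [map_one, h1]⟩
    · exact ⟨s, by rw [hs, h1]⟩
  have hidx : f.ker.index = 2 ^ 1 := by
    rw [Subgroup.index_ker, MonoidHom.range_eq_top.2 hsurj]
    rw [Nat.card_congr (Subgroup.topEquiv (G := ℤˣ)).toEquiv]
    simp
  have htop := h f.ker inferInstance 2 1 Nat.prime_two (by norm_num) hidx
  have : s ∈ f.ker := by rw [htop]; exact Subgroup.mem_top s
  rw [MonoidHom.mem_ker, hs] at this
  exact absurd this (by decide)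

theorem P1 (hTT : TT_stmt) (hAB : AB_stmt) : P1_stmt := by
  intro L Ω _ _ A hPL
  have hfinL : Finite L := hPL.finL
  have hfinΩ : Finite Ω := hPL.finΩ
  have htrans : MulAction.IsPretransitive L Ω := hPL.trans
  obtain ⟨α⟩ := hPL.nonempty
  obtain ⟨_, htwo, hcard, hodd, htwocard, _, _, _, huniq, _⟩ := hAB L A hPL.cyc
  have hevenA : 2 ∣ Nat.card A := by
    have h4 := hPL.four
    rw [← hPL.cardA] at h4
    obtain ⟨k, hk⟩ := h4
    exact ⟨k, by omega⟩
  have hinvA : ∃ τ ∈ A, IsInv τ := by
    obtain ⟨x, hx⟩ := exists_prime_orderOf_dvd_card' (G := A) 2 hevenA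
    refine ⟨(x : L), x.2, ?_, ?_⟩
    · have h1 : x ^ 2 = 1 := by rw [← hx]; exact pow_orderOf_eq_one x
      have h2 : ((x ^ 2 : A) : L) = 1 := by rw [h1]; rfl
      rw [Subgroup.coe_pow, pow_two] at h2
      exact h2
    · intro h1
      have h2 : x = 1 := Subtype.ext h1
      rw [h2, orderOf_one] at hx
      omega
  refine ⟨hinvA, ?_⟩
  obtain ⟨τ, hτA, hτ⟩ := hinvA
  -- the index of the 2-part
  have hstabodd : Odd (Nat.card (MulAction.stabilizer L α)) := by
    by_contra hne
    rw [Nat.not_odd_iff_even, even_iff_two_dvd] at hne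
    have h1 : 2 ∣ Nat.card Ω := dvd_trans (by norm_num) hPL.four
    have h2 := Nat.dvd_gcd hne h1
    rw [(hPL.copr α)] at h2
    exact absurd h2 (by norm_num)
  have hcardL : Nat.card L = Nat.card Ω * Nat.card (MulAction.stabilizer L α) := by
    have h1 := Subgroup.index_mul_card (MulAction.stabilizer L α)
    rw [MulAction.index_stabilizer, MulAction.orbit_eq_univ, Set.ncard_univ] at h1
    exact h1.symm
  have hidx : ∃ m : ℕ, (twoPart A).index = 2 * m ∧ Odd m := by
    refine ⟨Nat.card (oddPart A) * Nat.card (MulAction.stabilizer L α), ?_,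
      hodd.mul hstabodd⟩
    have h1 := Subgroup.index_mul_card (twoPart A)
    rw [hcardL, ← hPL.cardA, ← hcard] at h1
    have hpos : 0 < Nat.card (twoPart A) := Nat.card_pos
    apply Nat.eq_of_mul_eq_mul_right hpos
    rw [h1]; ring
  -- every involution is conjugate to `τ`
  have key : ∀ s : L, IsInv s → ∃ g : L, g⁻¹ * s * g = τ := by
    intro s hs
    by_contra hno
    have hnot : ∀ g : L, g⁻¹ * s * g ∉ twoPart A := by
      intro g hg
      apply hno
      refine ⟨g, huniq _ _ (P1_twoPart_le A hg) hτA ⟨?_, ?_⟩ hτ⟩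
      · calc g⁻¹ * s * g * (g⁻¹ * s * g) = g⁻¹ * (s * s) * g := by group
          _ = 1 := by rw [hs.1]; group
      · intro h1
        apply hs.2
        calc s = g * (g⁻¹ * s * g) * g⁻¹ := by group
          _ = 1 := by rw [h1]; group
    obtain ⟨f, hf⟩ := hTT L (twoPart A) s hidx hs.1 hnot
    exact P1_nosign hPL.noquot f s hf
  intro s t hs ht
  obtain ⟨g, hg⟩ := key s hs
  obtain ⟨h, hh⟩ := key t ht
  refine ⟨h * g⁻¹, ?_⟩
  calc h * g⁻¹ * s * (h * g⁻¹)⁻¹ = h * (g⁻¹ * s * g) * h⁻¹ := by group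
    _ = h * (h⁻¹ * t * h) * h⁻¹ := by rw [hg, hh]
    _ = t := by group

end Pool.Agent.helper53.AU
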