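import Pool.Agent.helper53.AU.SpecG1

/-!
au:TX: a cyclic Sylow `p`-subgroup with `N(<x>) = C(x)` for an element `x` of order `p`: normal `p`-complement.
-/

namespace Pool.Agent.helper53.AU

open scoped Classical

/-- elements of exponent `p` of a cyclic group lie in the subgroup generated by an element of order `p` -/
theorem TX_unique {H : Type} [Group H] [Finite H] [IsCyclic H] {p : ℕ} (hp : 0 < p) {x y : H}
    (hx : orderOf x = p) (hy : y ^ p = 1) : y ∈ Subgroup.zpowers x := by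
  have := Fintype.ofFinite H
  set F : Finset H := Finset.univ.filter (fun a : H => a ^ p = 1) with hF
  have hcard : F.card ≤ p := IsCyclic.card_pow_eq_one_le hp
  set T : Finset H := Finset.univ.filter (fun a : H => a ∈ Subgroup.zpowers x) with hT
  have hTF : T ⊆ F := by
    intro a ha
    rw [hT, Finset.mem_filter] at ha
    rw [hF, Finset.mem_filter]
    refine ⟨Finset.mem_univ _, ?_⟩
    obtain ⟨k, rfl⟩ := Subgroup.mem_zpowers_iff.mp ha.2
    rw [← zpow_natCast, ← zpow_mul, mul_comm, zpow_mul, zpow_natCast, ← hx, pow_orderOf_eq_one, one_zpow]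
  have hTc : T.card = p := by
    rw [← hx, ← Nat.card_zpowers, Nat.card_eq_fintype_card, hT]
    exact (Fintype.card_subtype _).symm
  have hEq : T = F := Finset.eq_of_subset_of_card_le hTF (by rw [hTc]; exact hcard)
  have : y ∈ T := by
    rw [hEq, hF, Finset.mem_filter]
    exact ⟨Finset.mem_univ _, hy⟩
  rw [hT, Finset.mem_filter] at this
  exact this.2

/-- a `p'`-element normalising the cyclic `p`-group `S` and centralising the element `x ∈ S` of order `p`
centralises `S` -/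
theorem TX_prime {G : Type} [Group G] [Finite G] {p : ℕ} (hp : p.Prime) {S : Subgroup G} (hS : IsCyclic S)
    (hSp : ∃ n : ℕ, Nat.card S = p ^ n) {x g : G} (hx : orderOf x = p) (hxS : x ∈ S)
    (hg : ∀ s ∈ S, g * s * g⁻¹ ∈ S) (hgx : g * x = x * g) {m : ℕ} (hm : Nat.Coprime m p) (hgm : g ^ m = 1) :
    ∀ s ∈ S, g * s = s * g := by
  obtain ⟨s0, hs0⟩ := hS.exists_generator
  obtain ⟨n, hn⟩ := hSp
  have hs0S : (s0 : G) ∈ S := s0.2
  -- `g s0 g⁻¹ = s0 ^ b`
  have hgen : ∀ s ∈ S, ∃ k : ℤ, s = (s0 : G) ^ k := by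
    intro s hs
    obtain ⟨k, hk⟩ := Subgroup.mem_zpowers_iff.mp (hs0 ⟨s, hs⟩)
    refine ⟨k, ?_⟩
    have := congrArg (Subtype.val) hk
    simpa using this.symm
  obtain ⟨b, hb⟩ := hgen _ (hg _ hs0S)
  obtain ⟨i, hi⟩ := hgen x hxS
  have hord : orderOf (s0 : G) = p ^ n := by
    rw [← hn, Subgroup.orderOf_coe]
    exact orderOf_eq_card_of_forall_mem_zpowers hs0
  -- `x ^ b = x`
  have hxb : x ^ b = x := by
    have h1 : g * x * g⁻¹ = x ^ b := by
      rw [hi]
      have : g * (s0 : G) ^ i * g⁻¹ = (g * (s0 : G) * g⁻¹) ^ i := by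
        rw [conj_zpow]
      rw [this, hb, ← zpow_mul, ← zpow_mul, mul_comm]
    rw [← h1, hgx, mul_inv_cancel_right]
  have hpb : (p : ℤ) ∣ b - 1 := by
    rw [← hx]
    rw [orderOf_dvd_iff_zpow_eq_one, zpow_sub, zpow_one, hxb, mul_inv_cancel]
  -- `n = k + 1`
  have hn0 : n ≠ 0 := by
    rintro rfl
    rw [pow_zero, orderOf_eq_one_iff] at hord
    rw [hord, one_zpow] at hi
    rw [hi, orderOf_one] at hx
    exact hp.one_lt.ne hx
  obtain ⟨k, rfl⟩ := Nat.exists_eq_succ_of_ne_zero hn0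
  have hpow : ∀ j : ℕ, g ^ j * (s0 : G) * (g ^ j)⁻¹ = (s0 : G) ^ (b ^ j) := by
    intro j
    induction j with
    | zero => simp
    | succ j ih =>
      have e1 : g ^ (j + 1) * (s0 : G) * (g ^ (j + 1))⁻¹ = g * (g ^ j * (s0 : G) * (g ^ j)⁻¹) * g⁻¹ := by
        rw [pow_succ']
        group
      rw [e1, ih]
      have e2 : g * (s0 : G) ^ (b ^ j) * g⁻¹ = (g * (s0 : G) * g⁻¹) ^ (b ^ j) := by rw [conj_zpow]
      rw [e2, hb, ← zpow_mul, pow_succ']
  have hdvd : ((p : ℤ) ^ (k + 1)) ∣ b ^ p ^ k - 1 := by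
    have := dvd_sub_pow_of_dvd_sub (R := ℤ) (p := p) (a := b) (b := 1) hpb k
    simpa using this
  have hcomm1 : g ^ (p ^ k) * (s0 : G) * (g ^ (p ^ k))⁻¹ = s0 := by
    rw [hpow]
    have : (s0 : G) ^ (b ^ p ^ k - 1) = 1 := by
      rw [← orderOf_dvd_iff_zpow_eq_one, hord]
      push_cast
      exact hdvd
    rw [zpow_sub, zpow_one, mul_inv_eq_one] at this
    exact this
  have hc1 : g ^ (p ^ k) ∈ Subgroup.centralizer ({(s0 : G)} : Set G) := by
    rw [Subgroup.mem_centralizer_singleton_iff]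
    rw [mul_inv_eq_iff_eq_mul] at hcomm1
    exact hcomm1
  have hc2 : g ^ m ∈ Subgroup.centralizer ({(s0 : G)} : Set G) := by
    rw [hgm]; exact one_mem _
  have hcop : Nat.Coprime m (p ^ k) := Nat.Coprime.pow_right k hm
  have hgc : g ∈ Subgroup.centralizer ({(s0 : G)} : Set G) := by
    have hbez := Nat.gcd_eq_gcd_ab m (p ^ k)
    rw [Nat.coprime_iff_gcd_eq_one.mp hcop] at hbez
    have e : g = (g ^ m) ^ (Nat.gcdA m (p ^ k)) * (g ^ (p ^ k)) ^ (Nat.gcdB m (p ^ k)) := by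
      rw [← zpow_natCast, ← zpow_natCast, ← zpow_mul, ← zpow_mul, ← zpow_add]
      conv_lhs => rw [← zpow_one g]
      congr 1
    rw [e]
    exact mul_mem (Subgroup.zpow_mem _ hc2 _) (Subgroup.zpow_mem _ hc1 _)
  rw [Subgroup.mem_centralizer_singleton_iff] at hgc
  intro s hs
  obtain ⟨j, rfl⟩ := hgen s hs
  have : Commute g (s0 : G) := hgc
  exact (this.zpow_right j)

theorem TX (hTB : TB_stmt) : TX_stmt := by
  intro G _ _ p _ S x hS hxS hx hN
  have hp : p.Prime := Fact.out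
  apply hTB G p S
  intro g hg
  -- elements normalising `S` centralise `x`
  have hnorm : ∀ h : G, (∀ s ∈ (S : Subgroup G), h * s * h⁻¹ ∈ (S : Subgroup G)) → h * x = x * h := by
    intro h hh
    refine hN h ?_
    have h1 := hh x hxS
    have h2 : (⟨h * x * h⁻¹, h1⟩ : (S : Subgroup G)) ∈ Subgroup.zpowers (⟨x, hxS⟩ : (S : Subgroup G)) := by
      refine TX_unique hp.pos ?_ ?_
      · rw [Subgroup.orderOf_mk]; exact hx
      · apply Subtype.ext
        simp only [SubmonoidClass.mk_pow, Subgroup.coe_one]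
        rw [conj_pow, ← hx, pow_orderOf_eq_one]
        group
    obtain ⟨k, hk⟩ := Subgroup.mem_zpowers_iff.mp h2
    have h3 := congrArg Subtype.val hk
    rw [Subgroup.mem_zpowers_iff]
    exact ⟨k, by simpa using h3⟩
  -- powers of `g` normalise `S`
  have hSfin : Finite (S : Subgroup G) := inferInstance
  have hgN : g ∈ Subgroup.normalizer (S : Set G) := by
    rw [Subgroup.mem_set_normalizer_iff]
    intro s
    refine ⟨hg s, fun h => ?_⟩
    -- conjugation by `g` is injective on the finite set `S`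
    have hinj : Function.Injective (fun s : (S : Subgroup G) => (⟨g * s * g⁻¹, hg s s.2⟩ : (S : Subgroup G))) := by
      intro a b hab
      have := congrArg Subtype.val hab
      simp only at this
      apply Subtype.ext
      exact mul_left_cancel (mul_right_cancel this)
    obtain ⟨a, ha⟩ := (Finite.injective_iff_surjective.mp hinj) ⟨g * s * g⁻¹, h⟩
    have := congrArg Subtype.val ha
    simp only at this
    have h4 : (a : G) = s := mul_left_cancel (mul_right_cancel this)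
    rw [← h4]
    exact a.2
  have hpowN : ∀ h ∈ Subgroup.normalizer (S : Set G), ∀ s ∈ (S : Subgroup G), h * s * h⁻¹ ∈ (S : Subgroup G) := by
    intro h hh s hs
    exact (Subgroup.mem_set_normalizer_iff.mp hh s).mp hs
  -- decomposition
  obtain ⟨e, m, hm, hem⟩ := Nat.exists_eq_pow_mul_and_not_dvd (orderOf_pos g).ne' p hp.ne_one
  have hcop : Nat.Coprime (p ^ e) m := Nat.Coprime.pow_left e ((Nat.Prime.coprime_iff_not_dvd hp).mpr hm)
  have hbez := Nat.gcd_eq_gcd_ab (p ^ e) m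
  rw [Nat.coprime_iff_gcd_eq_one.mp hcop] at hbez
  set g1 : G := (g ^ (p ^ e)) ^ (Nat.gcdA (p ^ e) m) with hg1
  set g2 : G := (g ^ m) ^ (Nat.gcdB (p ^ e) m) with hg2
  have hgg : g = g1 * g2 := by
    rw [hg1, hg2, ← zpow_natCast, ← zpow_natCast, ← zpow_mul, ← zpow_mul, ← zpow_add]
    conv_lhs => rw [← zpow_one g]
    congr 1
  have hg1N : g1 ∈ Subgroup.normalizer (S : Set G) := Subgroup.zpow_mem _ (Subgroup.pow_mem _ hgN _) _
  have hg2N : g2 ∈ Subgroup.normalizer (S : Set G) := Subgroup.zpow_mem _ (Subgroup.pow_mem _ hgN _) _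
  have hg1m : g1 ^ m = 1 := by
    rw [hg1, ← zpow_natCast, ← zpow_mul, mul_comm, zpow_mul, zpow_natCast, ← pow_mul, ← hem, pow_orderOf_eq_one,
      one_zpow]
  have hg2p : g2 ^ (p ^ e) = 1 := by
    rw [hg2, ← zpow_natCast, ← zpow_mul, mul_comm, zpow_mul, zpow_natCast, ← pow_mul, mul_comm m, ← hem,
      pow_orderOf_eq_one, one_zpow]
  have hcard : ∃ n : ℕ, Nat.card (S : Subgroup G) = p ^ n := (IsPGroup.iff_card).mp S.isPGroup'
  have h1 := TX_prime hp hS hcard hx hxS (hpowN g1 hg1N) (hnorm g1 (hpowN g1 hg1N))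
    (((Nat.Prime.coprime_iff_not_dvd hp).mpr hm).symm) hg1m
  -- `g2 ∈ S`
  have hg2S : g2 ∈ (S : Subgroup G) := by
    have hP : IsPGroup p (Subgroup.zpowers g2) := by
      rw [IsPGroup.iff_orderOf]
      rintro ⟨y, hy⟩
      rw [Subgroup.orderOf_mk]
      obtain ⟨k, rfl⟩ := Subgroup.mem_zpowers_iff.mp hy
      have : (g2 ^ k) ^ (p ^ e) = 1 := by
        rw [← zpow_natCast, ← zpow_mul, mul_comm, zpow_mul, zpow_natCast, hg2p, one_zpow]
      obtain ⟨j, _, hj⟩ := (Nat.dvd_prime_pow hp).mp (orderOf_dvd_of_pow_eq_one this)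
      exact ⟨j, hj⟩
    have h3 := hP.inf_normalizer_sylow S
    have h4 : g2 ∈ Subgroup.zpowers g2 ⊓ Subgroup.normalizer (S : Set G) :=
      ⟨Subgroup.mem_zpowers g2, hg2N⟩
    rw [h3] at h4
    exact h4.2
  have habel : ∀ a ∈ (S : Subgroup G), ∀ b ∈ (S : Subgroup G), a * b = b * a := by
    intro a ha b hb
    have h5 : (⟨a, ha⟩ : (S : Subgroup G)) * ⟨b, hb⟩ = ⟨b, hb⟩ * ⟨a, ha⟩ :=
      (@IsCyclic.commGroup (S : Subgroup G) _ hS).mul_comm ⟨a, ha⟩ ⟨b, hb⟩
    exact congrArg Subtype.val h5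
  intro s hs
  rw [hgg, mul_assoc, habel g2 hg2S s hs, ← mul_assoc, h1 s hs, mul_assoc]

end Pool.Agent.helper53.AU
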