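import Pool.Agent.helper99.MT.AN9
import Pool.Agent.helper35.MT.TR8
import Pool.Agent.helper35.MT.AN6
import Pool.Agent.Lib.SieveInterval

/-!
au:NT, part 1: the weighted sum over primes in a residue class modulo 120 with prescribed divisors of
`(n + 1) (n + 2)`.
-/

namespace Pool.Agent.helper93.AU

open Finset Real ArithmeticFunction
open Pool.Agent.helper39.MT

open Classical in
/-- the sieving function -/
noncomputable def hh (p n : ℕ) : ℝ := if 7 ≤ p ∧ (p ∣ n + 1 ∨ p ∣ n + 2) then 1 else 0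

lemma hh_nonneg (p n : ℕ) : 0 ≤ hh p n := by unfold hh; split_ifs <;> norm_num

lemma hh_le_one (p n : ℕ) : hh p n ≤ 1 := by unfold hh; split_ifs <;> norm_num

/-- the weight -/
noncomputable def ww (L : ℝ) (n : ℕ) : ℝ := vonMangoldt n * wt L (Real.log (120 : ℕ)) n

lemma ww_nonneg (L : ℝ) (n : ℕ) : 0 ≤ ww L n := mul_nonneg vonMangoldt_nonneg (wt_nonneg _ _ _)

/-- the range -/
noncomputable def NL (L : ℝ) : ℕ := NN L (Real.log (120 : ℕ))

/-- the total mass -/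
noncomputable def SS (L : ℝ) : ℝ := ∑ n ∈ Ioc 0 (NL L), ww L n

lemma SS_nonneg (L : ℝ) : 0 ≤ SS L := sum_nonneg fun n _ => ww_nonneg L n

/-- the set of `n` -/
noncomputable def AL (L : ℝ) : Finset ℕ := (Ioc 0 (NL L)).filter (fun n => n ≡ 67 [MOD 120])

lemma crt {d1 d2 : ℕ} (h1 : 0 < d1) (h2 : 0 < d2) (hc : Nat.Coprime d1 d2) (hc1 : Nat.Coprime 120 d1)
    (hc2 : Nat.Coprime 120 d2) : ∃ b : ℕ, Nat.Coprime b (120 * (d1 * d2)) ∧
      ∀ n : ℕ, (n ≡ 67 [MOD 120] ∧ d1 ∣ n + 1 ∧ d2 ∣ n + 2) ↔ n ≡ b [MOD 120 * (d1 * d2)] := by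
  obtain ⟨b1, hb11, hb12⟩ := Nat.chineseRemainder hc (d1 - 1) (2 * d2 - 2)
  have hc3 : Nat.Coprime 120 (d1 * d2) := Nat.Coprime.mul_right hc1 hc2
  obtain ⟨b, hb1, hb2⟩ := Nat.chineseRemainder hc3 67 b1
  have key : ∀ n : ℕ, (n ≡ 67 [MOD 120] ∧ d1 ∣ n + 1 ∧ d2 ∣ n + 2) ↔ n ≡ b [MOD 120 * (d1 * d2)] := by
    intro n
    rw [← Nat.modEq_and_modEq_iff_modEq_mul hc3, ← Nat.modEq_and_modEq_iff_modEq_mul hc]
    have e1 : n ≡ b [MOD 120] ↔ n ≡ 67 [MOD 120] := ⟨fun h => h.trans hb1, fun h => h.trans hb1.symm⟩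
    have hb2' := (Nat.modEq_and_modEq_iff_modEq_mul hc).mpr hb2
    have e2 : n ≡ b [MOD d1] ↔ d1 ∣ n + 1 := by
      have hbb : b ≡ d1 - 1 [MOD d1] := hb2'.1.trans hb11
      constructor
      · intro h
        have h3 : n + 1 ≡ d1 - 1 + 1 [MOD d1] := (h.trans hbb).add_right 1
        rw [Nat.sub_add_cancel h1] at h3
        exact (Nat.modEq_zero_iff_dvd).mp (h3.trans (by simp [Nat.ModEq]))
      · intro h
        have h3 : n + 1 ≡ d1 - 1 + 1 [MOD d1] := by
          rw [Nat.sub_add_cancel h1]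
          exact ((Nat.modEq_zero_iff_dvd).mpr h).trans (by simp [Nat.ModEq])
        exact (Nat.ModEq.add_right_cancel' 1 h3).trans hbb.symm
    have e3 : n ≡ b [MOD d2] ↔ d2 ∣ n + 2 := by
      have hbb : b ≡ 2 * d2 - 2 [MOD d2] := hb2'.2.trans hb12
      have h22 : 2 * d2 - 2 + 2 = 2 * d2 := by omega
      constructor
      · intro h
        have h3 : n + 2 ≡ 2 * d2 - 2 + 2 [MOD d2] := (h.trans hbb).add_right 2
        rw [h22] at h3
        exact (Nat.modEq_zero_iff_dvd).mp (h3.trans (by simp [Nat.ModEq]))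
      · intro h
        have h3 : n + 2 ≡ 2 * d2 - 2 + 2 [MOD d2] := by
          rw [h22]
          exact ((Nat.modEq_zero_iff_dvd).mpr h).trans (by simp [Nat.ModEq])
        exact (Nat.ModEq.add_right_cancel' 2 h3).trans hbb.symm
    rw [e1, e2, e3]
  refine ⟨b, ?_, key⟩
  obtain ⟨k1, k2, k3⟩ := (key b).mpr (Nat.ModEq.refl b)
  refine Nat.Coprime.mul_right ?_ (Nat.Coprime.mul_right ?_ ?_)
  · have : Nat.gcd b 120 = Nat.gcd 67 120 := Nat.ModEq.gcd_eq k1
    rw [Nat.coprime_iff_gcd_eq_one, this]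
    norm_num
  · rw [Nat.coprime_iff_gcd_eq_one]
    have g1 : Nat.gcd b d1 ∣ b := Nat.gcd_dvd_left _ _
    have g2 : Nat.gcd b d1 ∣ b + 1 := (Nat.gcd_dvd_right b d1).trans k2
    exact Nat.dvd_one.mp ((Nat.dvd_add_right g1).mp g2)
  · have g1 : Nat.gcd b d2 ∣ b := Nat.gcd_dvd_left _ _
    have g2 : Nat.gcd b d2 ∣ b + 2 := (Nat.gcd_dvd_right b d2).trans k3
    have g3 : Nat.gcd b d2 ∣ 2 := (Nat.dvd_add_right g1).mp g2
    have g4 : Nat.gcd b d2 ∣ d2 := Nat.gcd_dvd_right b d2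
    have hc4 : Nat.Coprime 2 d2 := Nat.Coprime.coprime_dvd_left (by norm_num) hc2
    exact Nat.eq_one_of_dvd_coprimes hc4 g3 g4

/-- the products -/
lemma prod_dvd_iff {t : Finset ℕ} (ht : ∀ p ∈ t, p.Prime) (n : ℕ) :
    (∀ p ∈ t, p ∣ n) ↔ (∏ p ∈ t, p) ∣ n := by
  constructor
  · intro h
    exact Finset.prod_primes_dvd n (fun p hp => (ht p hp).prime) h
  · intro h p hp
    exact (Finset.dvd_prod_of_mem _ hp).trans h

lemma coprime_prod {s t : Finset ℕ} (hs : ∀ p ∈ s, p.Prime) (ht : ∀ p ∈ t, p.Prime) (hd : Disjoint s t) :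
    Nat.Coprime (∏ p ∈ s, p) (∏ p ∈ t, p) := by
  refine Nat.Coprime.prod_left fun p hp => Nat.Coprime.prod_right fun q hq => ?_
  refine (Nat.coprime_primes (hs p hp) (ht q hq)).mpr ?_
  rintro rfl
  exact Finset.disjoint_left.mp hd hp hq

lemma coprime_120 {t : Finset ℕ} (ht : ∀ p ∈ t, p.Prime ∧ 7 ≤ p) : Nat.Coprime 120 (∏ p ∈ t, p) := by
  refine Nat.Coprime.prod_right fun p hp => ?_
  obtain ⟨h1, h2⟩ := ht p hp
  refine (Nat.Coprime.symm ((Nat.Prime.coprime_iff_not_dvd h1).mpr ?_))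
  intro h
  have h3 : p ∈ Nat.primeFactors 120 := by
    rw [Nat.mem_primeFactors]
    exact ⟨h1, h, by norm_num⟩
  have h4 : Nat.primeFactors 120 = {2, 3, 5} := by
    have : (120 : ℕ) = 2 ^ 3 * (3 * 5) := by norm_num
    rw [this, Nat.primeFactors_mul (by norm_num) (by norm_num), Nat.primeFactors_mul (by norm_num) (by norm_num),
      Nat.primeFactors_prime_pow (by norm_num) Nat.prime_two, Nat.Prime.primeFactors Nat.prime_three,
      Nat.Prime.primeFactors Nat.prime_five]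
    rfl
  rw [h4] at h3
  simp only [Finset.mem_insert, Finset.mem_singleton] at h3
  omega

lemma totient_prod {t : Finset ℕ} (ht : ∀ p ∈ t, p.Prime) :
    (Nat.totient (∏ p ∈ t, p) : ℝ) = ∏ p ∈ t, ((p : ℝ) - 1) := by
  classical
  induction t using Finset.induction_on with
  | empty => simp
  | insert a s ha ih =>
    have hs : ∀ p ∈ s, p.Prime := fun p hp => ht p (Finset.mem_insert_of_mem hp)
    have hap : a.Prime := ht a (Finset.mem_insert_self _ _)
    rw [Finset.prod_insert ha, Finset.prod_insert ha, Nat.totient_mul, Nat.totient_prime hap]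
    · push_cast [Nat.cast_sub hap.one_le]
      rw [ih hs]
    · refine Nat.Coprime.prod_right fun q hq => ?_
      refine (Nat.coprime_primes hap (hs q hq)).mpr ?_
      rintro rfl
      exact ha hq

open Classical in
/-- the sum with prescribed divisors -/
lemma sum_D {L : ℝ} (D : Finset ℕ) (hD : ∀ p ∈ D, p.Prime ∧ 7 ≤ p) (E : ℝ)
    (hE : ∀ b, Nat.Coprime b (120 * ∏ p ∈ D, p) → EE 120 L (∏ p ∈ D, p) b ≤ E) :
    |∑ n ∈ AL L, ww L n * ∏ p ∈ D, hh p n - SS L / 32 * ∏ p ∈ D, (2 / ((p : ℝ) - 1))| ≤ 2 ^ #D * E := by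
  -- expansion of the product
  have hexp : ∀ n : ℕ, ∏ p ∈ D, hh p n = ∑ t ∈ D.powerset,
      (if (∏ p ∈ t, p) ∣ n + 1 ∧ (∏ p ∈ D \ t, p) ∣ n + 2 then (1 : ℝ) else 0) := by
    intro n
    have e1 : ∀ p ∈ D, hh p n = (if p ∣ n + 1 then (1 : ℝ) else 0) + (if p ∣ n + 2 then (1 : ℝ) else 0) := by
      intro p hp
      have h7 := (hD p hp).2
      unfold hh
      by_cases h1 : p ∣ n + 1
      · have h2 : ¬ p ∣ n + 2 := by
          intro h2
          have : p ∣ 1 := (Nat.dvd_add_right h1).mp (by rwa [show n + 1 + 1 = n + 2 from rfl])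
          have := Nat.dvd_one.mp this
          omega
        simp [h1, h2, h7]
      · simp [h1, h7]
    rw [Finset.prod_congr rfl e1, Finset.prod_add]
    refine Finset.sum_congr rfl fun t ht => ?_
    rw [Finset.mem_powerset] at ht
    rw [Finset.prod_boole, Finset.prod_boole]
    have i1 := prod_dvd_iff (t := t) (fun p hp => (hD p (ht hp)).1) (n + 1)
    have i2 := prod_dvd_iff (t := D \ t) (fun p hp => (hD p (Finset.sdiff_subset hp)).1) (n + 2)
    by_cases h1 : (∏ p ∈ t, p) ∣ n + 1 <;> by_cases h2 : (∏ p ∈ D \ t, p) ∣ n + 2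
    · rw [if_pos (i1.mpr h1), if_pos (i2.mpr h2), if_pos ⟨h1, h2⟩, mul_one]
    · rw [if_neg (fun h => h2 (i2.mp h)), mul_zero, if_neg (fun h => h2 (And.right h))]
    · rw [if_neg (fun h => h1 (i1.mp h)), zero_mul, if_neg (fun h => h1 (And.left h))]
    · rw [if_neg (fun h => h1 (i1.mp h)), zero_mul, if_neg (fun h => h1 (And.left h))]
  -- each residue class
  have hcls : ∀ t ∈ D.powerset, |∑ n ∈ AL L, ww L n *
      (if (∏ p ∈ t, p) ∣ n + 1 ∧ (∏ p ∈ D \ t, p) ∣ n + 2 then (1 : ℝ) else 0) -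
        SS L / (Nat.totient (120 * ∏ p ∈ D, p) : ℝ)| ≤ E := by
    intro t ht
    rw [Finset.mem_powerset] at ht
    have hp1 : 0 < ∏ p ∈ t, p := Finset.prod_pos fun p hp => (hD p (ht hp)).1.pos
    have hp2 : 0 < ∏ p ∈ D \ t, p := Finset.prod_pos fun p hp => (hD p (Finset.sdiff_subset hp)).1.pos
    obtain ⟨b, hb, hb'⟩ := crt hp1 hp2
      (coprime_prod (fun p hp => (hD p (ht hp)).1) (fun p hp => (hD p (Finset.sdiff_subset hp)).1)
        Finset.disjoint_sdiff)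
      (coprime_120 fun p hp => hD p (ht hp)) (coprime_120 fun p hp => hD p (Finset.sdiff_subset hp))
    have hprod : (∏ p ∈ t, p) * (∏ p ∈ D \ t, p) = ∏ p ∈ D, p := by
      rw [mul_comm]
      exact Finset.prod_sdiff ht
    rw [hprod] at hb hb'
    have h1 := hE b hb
    unfold EE at h1
    have e : ∑ n ∈ AL L, ww L n *
        (if (∏ p ∈ t, p) ∣ n + 1 ∧ (∏ p ∈ D \ t, p) ∣ n + 2 then (1 : ℝ) else 0) =
        ∑ n ∈ Ioc 0 (NN L (Real.log (120 : ℕ))) with n ≡ b [MOD 120 * ∏ p ∈ D, p],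
          vonMangoldt n * wt L (Real.log (120 : ℕ)) n := by
      unfold AL
      rw [Finset.sum_filter, Finset.sum_filter]
      refine Finset.sum_congr rfl fun n _ => ?_
      by_cases h : n ≡ b [MOD 120 * ∏ p ∈ D, p]
      · obtain ⟨k1, k2, k3⟩ := (hb' n).mpr h
        rw [if_pos k1, if_pos h, if_pos ⟨k2, k3⟩, mul_one]
        rfl
      · rw [if_neg h]
        by_cases k1 : n ≡ 67 [MOD 120]
        · rw [if_pos k1, if_neg, mul_zero]
          intro k2
          exact h ((hb' n).mp ⟨k1, k2.1, k2.2⟩)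
        · rw [if_neg k1]
    rw [e]
    exact h1
  have hphi : SS L / 32 * ∏ p ∈ D, (2 / ((p : ℝ) - 1)) =
      ∑ t ∈ D.powerset, SS L / (Nat.totient (120 * ∏ p ∈ D, p) : ℝ) := by
    rw [Finset.sum_const, Finset.card_powerset, nsmul_eq_mul, Nat.totient_mul (coprime_120 hD)]
    have h120 : Nat.totient 120 = 32 := by decide +kernel
    rw [h120]
    push_cast
    rw [totient_prod (fun p hp => (hD p hp).1), Finset.prod_div_distrib, Finset.prod_const]
    have hne : ∏ p ∈ D, ((p : ℝ) - 1) ≠ 0 := by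
      refine Finset.prod_ne_zero_iff.mpr fun p hp => ?_
      have : (7 : ℝ) ≤ p := by exact_mod_cast (hD p hp).2
      linarith
    field_simp
  have hmain : ∑ n ∈ AL L, ww L n * ∏ p ∈ D, hh p n = ∑ t ∈ D.powerset, ∑ n ∈ AL L, ww L n *
      (if (∏ p ∈ t, p) ∣ n + 1 ∧ (∏ p ∈ D \ t, p) ∣ n + 2 then (1 : ℝ) else 0) := by
    rw [Finset.sum_comm]
    refine Finset.sum_congr rfl fun n _ => ?_
    rw [hexp n, Finset.mul_sum]
  rw [hmain, hphi, ← Finset.sum_sub_distrib]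
  refine (Finset.abs_sum_le_sum_abs _ _).trans ((Finset.sum_le_sum hcls).trans (le_of_eq ?_))
  rw [Finset.sum_const, Finset.card_powerset, nsmul_eq_mul]
  push_cast
  rfl

end Pool.Agent.helper93.AU
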