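import Pool.Agent.helper93.AU.NT1

/-!
au:NT, part 2: the sieve: many primes `n ≡ 67 (mod 120)` such that `(n + 1) (n + 2)` has no prime factor in
`[7, L ^ 5]`.
-/

namespace Pool.Agent.helper93.AU

open Finset Real ArithmeticFunction
open Pool.Agent.helper39.MT
open Pool.Agent.Lib.BrunHooley (Z)

lemma squarefree_prod {t : Finset ℕ} (ht : ∀ p ∈ t, p.Prime) : Squarefree (∏ p ∈ t, p) := by
  refine Finset.squarefree_prod_of_pairwise_isCoprime (fun p hp q hq hpq => ?_) (fun p hp => ?_)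
  · exact Nat.coprime_iff_isRelPrime.mp ((Nat.coprime_primes (ht p hp) (ht q hq)).mpr hpq)
  · exact (ht p hp).prime.squarefree

/-- small products -/
lemma small_D {K : ℕ} {L : ℝ} {E : ℕ → ℝ} (hE0 : ∀ D, 0 ≤ E D)
    (hE1 : ∀ D b : ℕ, D ≠ 0 → (D : ℝ) ≤ Real.exp (L / 60) → Squarefree D → Nat.Coprime D 120 →
        Nat.Coprime b (120 * D) → EE 120 L D b ≤ E D)
    (hE2 : ∀ Q : ℕ, (Q : ℝ) ≤ Real.exp (L / 60) →
        ∑ D ∈ Icc 1 Q with Squarefree D ∧ Nat.Coprime D 120, ((2 : ℕ) : ℝ) ^ D.primeFactors.card * E D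
          ≤ 1 / L ^ K)
    (D : Finset ℕ) (hD : ∀ p ∈ D, p.Prime ∧ 7 ≤ p) (hle : ((∏ p ∈ D, p : ℕ) : ℝ) ≤ Real.exp (L / 60)) :
    |∑ n ∈ AL L, ww L n * ∏ p ∈ D, hh p n - SS L / 32 * ∏ p ∈ D, (2 / ((p : ℝ) - 1))| ≤ 1 / L ^ K := by
  have hpos : 0 < ∏ p ∈ D, p := Finset.prod_pos fun p hp => (hD p hp).1.pos
  have hsq := squarefree_prod (t := D) fun p hp => (hD p hp).1
  have hcop : Nat.Coprime (∏ p ∈ D, p) 120 := (coprime_120 hD).symm
  have h1 := sum_D (L := L) D hD (E (∏ p ∈ D, p)) (fun b hb => hE1 _ b hpos.ne' hle hsq hcop hb)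
  refine h1.trans (le_trans ?_ (hE2 (∏ p ∈ D, p) hle))
  have hmem : (∏ p ∈ D, p) ∈ (Icc 1 (∏ p ∈ D, p)).filter (fun D => Squarefree D ∧ Nat.Coprime D 120) :=
    Finset.mem_filter.mpr ⟨Finset.mem_Icc.mpr ⟨hpos, le_rfl⟩, hsq, hcop⟩
  have h2 := Finset.single_le_sum (f := fun D : ℕ => ((2 : ℕ) : ℝ) ^ D.primeFactors.card * E D)
    (fun D _ => mul_nonneg (by positivity) (hE0 D)) hmem
  refine le_trans (le_of_eq ?_) h2
  rw [Nat.primeFactors_prod (fun p hp => (hD p hp).1)]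
  norm_num

/-- selection of a sub-product -/
lemma select (D : Finset ℕ) (hD : ∀ p ∈ D, 2 ≤ p) {z : ℕ} (hz : ∀ p ∈ D, p ≤ z) {Y : ℝ} (hY : 1 ≤ Y)
    (hgt : Y < ((∏ p ∈ D, p : ℕ) : ℝ)) :
    ∃ D' ⊆ D, ((∏ p ∈ D', p : ℕ) : ℝ) ≤ Y ∧ Y < ((∏ p ∈ D', p : ℕ) : ℝ) * z := by
  classical
  set F := D.powerset.filter (fun t => ((∏ p ∈ t, p : ℕ) : ℝ) ≤ Y) with hF
  have hne : F.Nonempty := ⟨∅, by
    rw [hF, Finset.mem_filter]
    exact ⟨Finset.empty_mem_powerset _, by simpa using hY⟩⟩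
  obtain ⟨t, ht, hmax⟩ := Finset.exists_max_image F (fun t => ∏ p ∈ t, p) hne
  rw [hF, Finset.mem_filter, Finset.mem_powerset] at ht
  refine ⟨t, ht.1, ht.2, ?_⟩
  have hex : ∃ p ∈ D, p ∉ t := by
    by_contra hcon
    push Not at hcon
    have : t = D := Finset.Subset.antisymm ht.1 hcon
    rw [this] at ht
    exact absurd ht.2 (not_le.mpr hgt)
  obtain ⟨p, hp, hpt⟩ := hex
  have hpos : 0 < ∏ q ∈ t, q := Finset.prod_pos fun q hq => by have := hD q (ht.1 hq); omega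
  by_contra hcon
  push Not at hcon
  have h1 : insert p t ∈ F := by
    rw [hF, Finset.mem_filter, Finset.mem_powerset]
    refine ⟨Finset.insert_subset hp ht.1, ?_⟩
    rw [Finset.prod_insert hpt]
    push_cast
    refine le_trans ?_ hcon
    push_cast
    rw [mul_comm]
    have : (p : ℝ) ≤ z := by exact_mod_cast hz p hp
    exact mul_le_mul_of_nonneg_left this (by positivity)
  have h2 := hmax _ h1
  simp only [Finset.prod_insert hpt] at h2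
  have h3 := hD p hp
  nlinarith

lemma two_div_sq_le {p : ℕ} (hp : 7 ≤ p) : (2 / ((p : ℝ) - 1)) ^ 2 ≤ 1 / (p : ℝ) := by
  have h7 : (7 : ℝ) ≤ p := by exact_mod_cast hp
  rw [div_pow, div_le_div_iff₀ (by nlinarith) (by linarith)]
  nlinarith

/-- large products -/
lemma large_D {K : ℕ} {L : ℝ} (hL0 : 0 < L) {E : ℕ → ℝ} (hE0 : ∀ D, 0 ≤ E D)
    (hE1 : ∀ D b : ℕ, D ≠ 0 → (D : ℝ) ≤ Real.exp (L / 60) → Squarefree D → Nat.Coprime D 120 →
        Nat.Coprime b (120 * D) → EE 120 L D b ≤ E D)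
    (hE2 : ∀ Q : ℕ, (Q : ℝ) ≤ Real.exp (L / 60) →
        ∑ D ∈ Icc 1 Q with Squarefree D ∧ Nat.Coprime D 120, ((2 : ℕ) : ℝ) ^ D.primeFactors.card * E D
          ≤ 1 / L ^ K) {z : ℕ} (hz : (z : ℝ) ≤ L ^ 10) (hSL : SS L ≤ L)
    (hbig : L ^ (K + 6) ≤ Real.exp (L / 120))
    (D : Finset ℕ) (hD : ∀ p ∈ D, p.Prime ∧ 7 ≤ p) (hDz : ∀ p ∈ D, p ≤ z)
    (hgt : Real.exp (L / 60) < ((∏ p ∈ D, p : ℕ) : ℝ)) :
    |∑ n ∈ AL L, ww L n * ∏ p ∈ D, hh p n - SS L / 32 * ∏ p ∈ D, (2 / ((p : ℝ) - 1))| ≤ 2 / L ^ K := by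
  obtain ⟨D', hsub, hle, hlt⟩ := select D (fun p hp => (hD p hp).1.two_le) hDz
    (Real.one_le_exp (by positivity)) hgt
  have hD' : ∀ p ∈ D', p.Prime ∧ 7 ≤ p := fun p hp => hD p (hsub hp)
  have hsmall := small_D hE0 hE1 hE2 D' hD' hle
  have hq0 : ∀ p ∈ D, 0 ≤ 2 / ((p : ℝ) - 1) := by
    intro p hp
    have : (7 : ℝ) ≤ p := by exact_mod_cast (hD p hp).2
    have : (0 : ℝ) < (p : ℝ) - 1 := by linarith
    positivity
  have hq1 : ∀ p ∈ D, 2 / ((p : ℝ) - 1) ≤ 1 := by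
    intro p hp
    have : (7 : ℝ) ≤ p := by exact_mod_cast (hD p hp).2
    rw [div_le_one (by linarith)]
    linarith
  have hP0 : 0 ≤ ∏ p ∈ D, (2 / ((p : ℝ) - 1)) := Finset.prod_nonneg hq0
  have hPp0 : 0 ≤ ∏ p ∈ D', (2 / ((p : ℝ) - 1)) := Finset.prod_nonneg fun p hp => hq0 p (hsub hp)
  have hPle : ∏ p ∈ D, (2 / ((p : ℝ) - 1)) ≤ ∏ p ∈ D', (2 / ((p : ℝ) - 1)) :=
    Finset.prod_le_prod_of_subset_of_le_one hsub hq0 (fun p hp _ => hq1 p hp)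
  have hsumle : ∑ n ∈ AL L, ww L n * ∏ p ∈ D, hh p n ≤ ∑ n ∈ AL L, ww L n * ∏ p ∈ D', hh p n := by
    refine Finset.sum_le_sum fun n _ => mul_le_mul_of_nonneg_left ?_ (ww_nonneg L n)
    exact Finset.prod_le_prod_of_subset_of_le_one hsub (fun p _ => hh_nonneg p n)
      (fun p _ _ => hh_le_one p n)
  have hsum0 : 0 ≤ ∑ n ∈ AL L, ww L n * ∏ p ∈ D, hh p n :=
    Finset.sum_nonneg fun n _ => mul_nonneg (ww_nonneg L n) (Finset.prod_nonneg fun p _ => hh_nonneg p n)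
  -- the main term of the sub-product is tiny
  have hposD' : (0 : ℝ) < ((∏ p ∈ D', p : ℕ) : ℝ) := by
    exact_mod_cast Finset.prod_pos fun p hp => (hD' p hp).1.pos
  have hsq : (∏ p ∈ D', (2 / ((p : ℝ) - 1))) ^ 2 ≤ (L ^ 5 * Real.exp (-(L / 120))) ^ 2 := by
    calc (∏ p ∈ D', (2 / ((p : ℝ) - 1))) ^ 2 = ∏ p ∈ D', (2 / ((p : ℝ) - 1)) ^ 2 := by
          rw [Finset.prod_pow]
      _ ≤ ∏ p ∈ D', (1 / (p : ℝ)) := Finset.prod_le_prod (fun p _ => sq_nonneg _)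
          (fun p hp => two_div_sq_le (hD' p hp).2)
      _ = 1 / ((∏ p ∈ D', p : ℕ) : ℝ) := by
          push_cast
          rw [Finset.prod_div_distrib, Finset.prod_const_one]
      _ ≤ L ^ 10 / Real.exp (L / 60) := by
          rw [div_le_div_iff₀ hposD' (Real.exp_pos _), one_mul]
          refine hlt.le.trans ?_
          rw [mul_comm]
          exact mul_le_mul_of_nonneg_right hz hposD'.le
      _ = (L ^ 5 * Real.exp (-(L / 120))) ^ 2 := by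
          rw [mul_pow, ← pow_mul, ← Real.exp_nat_mul, div_eq_mul_inv, ← Real.exp_neg]
          congr 2
          push_cast
          ring
  have hPp : ∏ p ∈ D', (2 / ((p : ℝ) - 1)) ≤ L ^ 5 * Real.exp (-(L / 120)) :=
    le_of_sq_le_sq hsq (by positivity)
  have htiny : SS L / 32 * ∏ p ∈ D', (2 / ((p : ℝ) - 1)) ≤ 1 / L ^ K := by
    calc SS L / 32 * ∏ p ∈ D', (2 / ((p : ℝ) - 1)) ≤ L * (L ^ 5 * Real.exp (-(L / 120))) := by
          refine mul_le_mul ?_ hPp hPp0 hL0.le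
          have := SS_nonneg L
          linarith
      _ = L ^ 6 * Real.exp (-(L / 120)) := by ring
      _ ≤ 1 / L ^ K := by
          rw [le_div_iff₀ (by positivity), Real.exp_neg, ← div_eq_mul_inv, div_mul_eq_mul_div,
            div_le_one (Real.exp_pos _), ← pow_add]
          rw [add_comm 6 K]
          exact hbig
  have hS0 : 0 ≤ SS L / 32 := by have := SS_nonneg L; linarith
  have h5 := (abs_le.mp hsmall).2
  have h6 : SS L / 32 * ∏ p ∈ D, (2 / ((p : ℝ) - 1)) ≤ SS L / 32 * ∏ p ∈ D', (2 / ((p : ℝ) - 1)) :=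
    mul_le_mul_of_nonneg_left hPle hS0
  have h7 : 0 ≤ SS L / 32 * ∏ p ∈ D, (2 / ((p : ℝ) - 1)) := mul_nonneg hS0 hP0
  have h8 : (0 : ℝ) ≤ 1 / L ^ K := by positivity
  have h9 : 2 / L ^ K = 1 / L ^ K + 1 / L ^ K := by ring
  rw [abs_le, h9]
  constructor
  · linarith
  · linarith

end Pool.Agent.helper93.AU
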