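import Pool.Agent.helper93.AU.NT2

/-!
au:NT, part 3: the lower bound of the sieve.
-/

namespace Pool.Agent.helper93.AU

open Finset Real ArithmeticFunction
open Pool.Agent.helper39.MT
open Pool.Agent.Lib.BrunHooley (Z Z_pos Z_mono Z_succ exp_le_Z prod_lower brun_hooley)

/-- the sieving density -/
noncomputable def om (p : ℕ) : ℝ := if 7 ≤ p then 2 * p / ((p : ℝ) - 1) else 0

lemma om_nonneg (p : ℕ) : 0 ≤ om p := by
  unfold om
  split_ifs with h
  · have : (7 : ℝ) ≤ p := by exact_mod_cast h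
    have : (0 : ℝ) < (p : ℝ) - 1 := by linarith
    positivity
  · exact le_rfl

lemma om_le (p : ℕ) : om p ≤ 3 := by
  unfold om
  split_ifs with h
  · have : (7 : ℝ) ≤ p := by exact_mod_cast h
    rw [div_le_iff₀ (by linarith)]
    linarith
  · norm_num

lemma om_lt {p : ℕ} (hp : p.Prime) : om p < p := by
  by_cases h : 7 ≤ p
  · have h1 : (7 : ℝ) ≤ p := by exact_mod_cast h
    have := om_le p
    linarith
  · unfold om
    rw [if_neg h]
    exact_mod_cast hp.pos

lemma one_le_om {p : ℕ} (h : 7 ≤ p) : 1 ≤ om p := by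
  unfold om
  rw [if_pos h]
  have : (7 : ℝ) ≤ p := by exact_mod_cast h
  rw [le_div_iff₀ (by linarith)]
  linarith

lemma om_div {p : ℕ} (h : 7 ≤ p) : om p / p = 2 / ((p : ℝ) - 1) := by
  unfold om
  rw [if_pos h]
  have h7 : (7 : ℝ) ≤ p := by exact_mod_cast h
  have h1 : (p : ℝ) - 1 ≠ 0 := by linarith
  have h2 : (p : ℝ) ≠ 0 := by linarith
  field_simp

lemma om_ge (p : ℕ) : 1 - (((if 7 ≤ p then 3 else 0 : ℕ)) : ℝ) / p ≤ 1 - om p / p := by
  by_cases h : 7 ≤ p
  · rw [om_div h, if_pos h]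
    have h7 : (7 : ℝ) ≤ p := by exact_mod_cast h
    have : 2 / ((p : ℝ) - 1) ≤ ((3 : ℕ) : ℝ) / p := by
      push_cast
      rw [div_le_div_iff₀ (by linarith) (by linarith)]
      linarith
    linarith
  · unfold om
    rw [if_neg h, if_neg h]
    simp

/-- the level -/
lemma level {L : ℝ} {r₀ : ℕ} (hL : 1 ≤ L) (hL2 : (Z (r₀ + 1) : ℝ) < L ^ 5) :
    ∃ r : ℕ, r₀ + 1 ≤ r ∧ L ^ 5 ≤ (Z r : ℝ) ∧ (Z (r - 1) : ℝ) < L ^ 5 ∧ (Z r : ℝ) ≤ L ^ 10 := by
  classical
  have hex : ∃ r : ℕ, L ^ 5 ≤ (Z r : ℝ) := by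
    obtain ⟨n, hn⟩ := exists_nat_ge (L ^ 5)
    refine ⟨n, hn.trans ?_⟩
    have h1 : n < 2 ^ n := Nat.lt_two_pow_self
    have h2 : 2 ^ n < 2 ^ 2 ^ n := Nat.lt_two_pow_self
    have : n ≤ Z n := by
      unfold Z
      omega
    exact_mod_cast this
  set r := Nat.find hex with hr
  have h1 : L ^ 5 ≤ (Z r : ℝ) := Nat.find_spec hex
  have hr0 : r₀ + 1 < r := by
    by_contra hcon
    push Not at hcon
    have : (Z r : ℝ) ≤ Z (r₀ + 1) := by exact_mod_cast Z_mono hcon
    linarith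
  have h2 : (Z (r - 1) : ℝ) < L ^ 5 := by
    have := Nat.find_min hex (m := r - 1) (by omega)
    exact not_le.mp this
  refine ⟨r, hr0.le, h1, h2, ?_⟩
  have h3 := Z_succ (r - 1)
  rw [show r - 1 + 1 = r by omega] at h3
  have h4 : (Z r : ℝ) = Z (r - 1) * Z (r - 1) := by
    rw [h3]; push_cast; ring
  rw [h4]
  have h5 : (0 : ℝ) ≤ Z (r - 1) := Nat.cast_nonneg _
  calc (Z (r - 1) : ℝ) * Z (r - 1) ≤ L ^ 5 * L ^ 5 := mul_le_mul h2.le h2.le h5 (by positivity)
    _ = L ^ 10 := by ring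

/-- powers against the exponential -/
lemma pow_le_exp_ev (n : ℕ) : ∃ L₁ : ℝ, ∀ L : ℝ, L₁ ≤ L → L ^ n ≤ Real.exp (L / 120) := by
  have h1 : Filter.Tendsto (fun x : ℝ => x ^ n / Real.exp x) Filter.atTop (nhds 0) :=
    Real.tendsto_pow_mul_exp_neg_atTop_nhds_zero n |>.congr (fun x => by
      rw [Real.exp_neg]; rfl)
  have h2 : ∀ᶠ x : ℝ in Filter.atTop, x ^ n / Real.exp x < 1 / 120 ^ n :=
    h1.eventually (gt_mem_nhds (by positivity))
  obtain ⟨x0, hx0⟩ := Filter.eventually_atTop.mp h2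
  refine ⟨120 * x0, fun L hL => ?_⟩
  have h3 := hx0 (L / 120) (by linarith)
  rw [div_lt_iff₀ (Real.exp_pos _), div_pow] at h3
  have h4 : (0 : ℝ) < 120 ^ n := by positivity
  have h5 : L ^ n / 120 ^ n * 120 ^ n < 1 / 120 ^ n * Real.exp (L / 120) * 120 ^ n :=
    mul_lt_mul_of_pos_right h3 h4
  rw [div_mul_cancel₀ _ h4.ne'] at h5
  have h6 : 1 / 120 ^ n * Real.exp (L / 120) * 120 ^ n = Real.exp (L / 120) := by
    field_simp
  rw [h6] at h5
  exact h5.le

/-- the sieve -/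
theorem sieve_main : ∃ C₀ : ℕ, ∃ c : ℝ, 0 < c ∧ ∃ L₁ : ℝ, ∀ L : ℝ, L₁ ≤ L → Good C₀ L →
    ∃ z : ℕ, L ^ 5 ≤ (z : ℝ) ∧
      c * √L ≤ ∑ n ∈ AL L, ww L n * ∏ p ∈ Nat.primesLE z, (1 - hh p n) := by
  classical
  obtain ⟨C, hC⟩ := brun_hooley 3
  set K := 10 * C + 1 with hK
  obtain ⟨C₀, hC₀⟩ := Pool.Agent.helper39.MT.bv_log K 2
  obtain ⟨L1, h1⟩ := hC₀ 120 (by norm_num)
  obtain ⟨c, hc, hcl⟩ := prod_lower 3
  obtain ⟨r₀, hr₀⟩ := exp_le_Z 120 240
  obtain ⟨L2, h2⟩ := Lam_wt_sum_ge 120 (by norm_num)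
  obtain ⟨L3, h3⟩ := pow_le_exp_ev (K + 6)
  refine ⟨C₀, c / 640, by positivity,
    max (max (max L1 L2) (max L3 1)) (max (Z (r₀ + 1) + 1) (1280 / c)), fun L hL hgood => ?_⟩
  have hL1 : L1 ≤ L := le_trans (le_trans (le_max_left _ _) (le_trans (le_max_left _ _) (le_max_left _ _))) hL
  have hL2 : L2 ≤ L := le_trans (le_trans (le_max_right _ _) (le_trans (le_max_left _ _) (le_max_left _ _))) hL
  have hL3 : L3 ≤ L := le_trans (le_trans (le_max_left _ _) (le_trans (le_max_right _ _) (le_max_left _ _))) hL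
  have hLone : 1 ≤ L := le_trans (le_trans (le_max_right _ _) (le_trans (le_max_right _ _) (le_max_left _ _))) hL
  have hL4 : (Z (r₀ + 1) : ℝ) + 1 ≤ L := le_trans (le_trans (le_max_left _ _) (le_max_right _ _)) hL
  have hL5 : 1280 / c ≤ L := le_trans (le_trans (le_max_right _ _) (le_max_right _ _)) hL
  have hL0 : 0 < L := by linarith
  obtain ⟨E, hE0, hE1, hE2⟩ := h1 L hL1 hgood
  obtain ⟨hS1, hS2⟩ := h2 L hL2
  have hbig := h3 L hL3
  have hpow5 : L ≤ L ^ 5 := by
    calc L = L ^ 1 := (pow_one L).symm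
      _ ≤ L ^ 5 := pow_le_pow_right₀ hLone (by norm_num)
  obtain ⟨r, hr, hz1, hz2, hz3⟩ := level (r₀ := r₀) hLone (by linarith)
  refine ⟨Z r, hz1, ?_⟩
  set M : ℝ := L ^ K / 2 with hM
  have hMpos : 0 < M := by positivity
  have hX0 : 0 ≤ M * (SS L / 32) := mul_nonneg hMpos.le (by have := SS_nonneg L; linarith)
  have key := hC r ℕ (AL L) (fun n => M * ww L n) hh (M * (SS L / 32)) om
    (fun n _ => mul_nonneg hMpos.le (ww_nonneg L n)) (fun p n _ => hh_nonneg p n)
    (fun p n _ => hh_le_one p n) hX0 om_nonneg (by push_cast; exact om_le) (fun p hp => om_lt hp) ?_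
  · obtain ⟨klo, _⟩ := key
    have hsum : ∑ n ∈ AL L, M * ww L n * ∏ p ∈ Nat.primesLE (Z r), (1 - hh p n) =
        M * ∑ n ∈ AL L, ww L n * ∏ p ∈ Nat.primesLE (Z r), (1 - hh p n) := by
      rw [Finset.mul_sum]
      refine Finset.sum_congr rfl fun n _ => by ring
    rw [hsum] at klo
    set T := ∑ n ∈ AL L, ww L n * ∏ p ∈ Nat.primesLE (Z r), (1 - hh p n) with hT
    set P := ∏ p ∈ Nat.primesLE (Z r), (1 - om p / p) with hP
    -- the product
    have hPge : c * Real.exp (-(4 * (3 : ℕ) * (r + 1))) ≤ P := by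
      refine (hcl r (fun p => if 7 ≤ p then 3 else 0) (fun p => by split_ifs <;> omega)
        (fun p hp => ?_)).trans ?_
      · split_ifs with h
        · omega
        · exact hp.pos
      · refine Finset.prod_le_prod (fun p hp => ?_) (fun p _ => om_ge p)
        have hpp := (Nat.mem_primesLE.mp hp).2
        have hp0 : (0 : ℝ) < p := by exact_mod_cast hpp.pos
        split_ifs with h
        · rw [sub_nonneg, div_le_one hp0]
          exact_mod_cast (by omega : 3 ≤ p)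
        · simp
    have hexp : Real.exp (12 * ((r : ℝ) + 1)) ≤ √L := by
      have e1 := hr₀ (r - 1) (by omega)
      have e2 : Real.exp (12 * ((r : ℝ) + 1)) ^ 10 ≤ L ^ 5 := by
        rw [← Real.exp_nat_mul]
        refine le_trans (le_of_eq ?_) (e1.trans hz2.le)
        congr 1
        rw [Nat.cast_sub (by omega)]
        push_cast
        ring
      have e3 : L ^ 5 = (√L) ^ 10 := by
        rw [show (10 : ℕ) = 2 * 5 by norm_num, pow_mul, Real.sq_sqrt hL0.le]
      rw [e3] at e2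
      exact le_of_pow_le_pow_left₀ (by norm_num) (Real.sqrt_nonneg _) e2
    have hsq : 0 < √L := Real.sqrt_pos.2 hL0
    have hPge2 : c / √L ≤ P := by
      refine le_trans ?_ hPge
      have e1 : Real.exp (-(4 * ((3 : ℕ) : ℝ) * (r + 1))) = (Real.exp (12 * ((r : ℝ) + 1)))⁻¹ := by
        rw [← Real.exp_neg]
        congr 1
        push_cast
        ring
      rw [e1, div_eq_mul_inv]
      refine mul_le_mul_of_nonneg_left ?_ hc.le
      exact inv_anti₀ (Real.exp_pos _) hexp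
    have hZC : (Z r : ℝ) ^ C ≤ M * (2 / L) := by
      calc (Z r : ℝ) ^ C ≤ (L ^ 10) ^ C := pow_le_pow_left₀ (Nat.cast_nonneg _) hz3 C
        _ = M * (2 / L) := by
          rw [hM, ← pow_mul, hK, pow_succ]
          field_simp
    have hSS : L / 5 ≤ SS L := hS1
    have h7 : M * (SS L / 32 / 2 * P - 2 / L) ≤ M * T := by
      calc M * (SS L / 32 / 2 * P - 2 / L) = M * (SS L / 32) / 2 * P - M * (2 / L) := by ring
        _ ≤ M * (SS L / 32) / 2 * P - (Z r : ℝ) ^ C := by linarith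
        _ ≤ _ := klo
    have h8 : SS L / 32 / 2 * P - 2 / L ≤ T := le_of_mul_le_mul_left h7 hMpos
    have h9 : L / 5 / 32 / 2 * (c / √L) ≤ SS L / 32 / 2 * P := by
      refine mul_le_mul (by linarith) hPge2 (by positivity) ?_
      have := SS_nonneg L
      linarith
    have h10 : L / 5 / 32 / 2 * (c / √L) = c / 320 * √L := by
      have : L = √L * √L := (Real.mul_self_sqrt hL0.le).symm
      rw [mul_div_assoc']
      rw [div_eq_iff hsq.ne']
      linear_combination (c / 320) * this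
    have h11 : 2 / L ≤ c / 640 * √L := by
      have h12 : (1 : ℝ) ≤ √L := Real.one_le_sqrt.mpr hLone
      have h13 : 2 / L ≤ c / 640 := by
        rw [div_le_iff₀ hL0]
        rw [div_le_iff₀ hc] at hL5
        linarith
      calc 2 / L ≤ c / 640 := h13
        _ = c / 640 * 1 := (mul_one _).symm
        _ ≤ c / 640 * √L := mul_le_mul_of_nonneg_left h12 (by positivity)
    have h14 : c / 320 * √L = c / 640 * √L + c / 640 * √L := by ring
    linarith
  · intro D hD
    have hsum : ∑ n ∈ AL L, M * ww L n * ∏ p ∈ D, hh p n = M * ∑ n ∈ AL L, ww L n * ∏ p ∈ D, hh p n := by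
      rw [Finset.mul_sum]
      refine Finset.sum_congr rfl fun n _ => by ring
    rw [hsum]
    by_cases hall : ∀ p ∈ D, 7 ≤ p
    · have hD' : ∀ p ∈ D, p.Prime ∧ 7 ≤ p := fun p hp => ⟨(Nat.mem_primesLE.mp (hD hp)).2, hall p hp⟩
      have hDz : ∀ p ∈ D, p ≤ Z r := fun p hp => (Nat.mem_primesLE.mp (hD hp)).1
      have hprod : ∏ p ∈ D, (om p / p) = ∏ p ∈ D, (2 / ((p : ℝ) - 1)) :=
        Finset.prod_congr rfl fun p hp => om_div (hall p hp)
      rw [hprod, mul_assoc, ← mul_sub, abs_mul, abs_of_pos hMpos]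
      have hb : |∑ n ∈ AL L, ww L n * ∏ p ∈ D, hh p n - SS L / 32 * ∏ p ∈ D, (2 / ((p : ℝ) - 1))|
          ≤ 2 / L ^ K := by
        rcases le_or_gt ((∏ p ∈ D, p : ℕ) : ℝ) (Real.exp (L / 60)) with hle | hgt
        · refine (small_D hE0 hE1 hE2 D hD' hle).trans ?_
          have : (0 : ℝ) ≤ 1 / L ^ K := by positivity
          have e : 2 / L ^ K = 1 / L ^ K + 1 / L ^ K := by ring
          rw [e]
          linarith
        · exact large_D hL0 hE0 hE1 hE2 hz3 hS2 hbig D hD' hDz hgt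
      calc M * _ ≤ M * (2 / L ^ K) := mul_le_mul_of_nonneg_left hb hMpos.le
        _ = 1 := by
          rw [hM]
          have : L ^ K ≠ 0 := by positivity
          field_simp
        _ ≤ ∏ p ∈ D, om p := by
          have := Finset.prod_le_prod (s := D) (f := fun _ => (1 : ℝ)) (g := om)
            (fun p _ => zero_le_one) (fun p hp => one_le_om (hall p hp))
          rwa [Finset.prod_const_one] at this
    · push Not at hall
      obtain ⟨q, hq, hq7⟩ := hall
      have e1 : ∀ n, ∏ p ∈ D, hh p n = 0 := by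
        intro n
        refine Finset.prod_eq_zero hq ?_
        unfold hh
        rw [if_neg]
        intro h
        omega
      have e2 : om q = 0 := by
        unfold om
        rw [if_neg (by omega)]
      have e3 : ∏ p ∈ D, (om p / p) = 0 := Finset.prod_eq_zero hq (by rw [e2, zero_div])
      have e4 : ∏ p ∈ D, om p = 0 := Finset.prod_eq_zero hq e2
      rw [e3, e4]
      simp [e1]

end Pool.Agent.helper93.AU
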