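import Pool.Agent.helper93.AU.NT3
import Pool.Agent.helper47.RA.Num

/-!
au:NT, part 4: the error terms.
-/

namespace Pool.Agent.helper93.AU

open Finset Real ArithmeticFunction
open Pool.Agent.helper39.MT

lemma log120_le : Real.log (120 : ℕ) ≤ 5 := by
  rw [Real.log_le_iff_le_exp (by norm_num)]
  have h1 : (2.7 : ℝ) < Real.exp 1 := lt_trans (by norm_num) Real.exp_one_gt_d9
  have h2 : Real.exp 5 = Real.exp 1 ^ 5 := by rw [← Real.exp_nat_mul]; norm_num
  rw [h2]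
  have h3 : (2.7 : ℝ) ^ 5 ≤ Real.exp 1 ^ 5 := pow_le_pow_left₀ (by norm_num) h1.le 5
  refine le_trans ?_ h3
  norm_num

lemma exp5_ge : (129 : ℝ) ≤ Real.exp 5 := by
  have h1 : (2.7 : ℝ) < Real.exp 1 := lt_trans (by norm_num) Real.exp_one_gt_d9
  have h2 : Real.exp 5 = Real.exp 1 ^ 5 := by rw [← Real.exp_nat_mul]; norm_num
  rw [h2]
  have h3 : (2.7 : ℝ) ^ 5 ≤ Real.exp 1 ^ 5 := pow_le_pow_left₀ (by norm_num) h1.le 5
  refine le_trans ?_ h3
  norm_num

lemma NL_le {L : ℝ} (hL : 0 < L) : (NL L : ℝ) + 9 ≤ Real.exp (L + 5) := by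
  have h1 : (NL L : ℝ) ≤ Real.exp (L + Real.log (120 : ℕ)) := by
    unfold NL NN
    exact Nat.floor_le (Real.exp_pos _).le
  rw [Real.exp_add, Real.exp_log (by norm_num)] at h1
  have h2 : 1 ≤ Real.exp L := Real.one_le_exp hL.le
  rw [Real.exp_add]
  have h3 := exp5_ge
  push_cast at h1
  nlinarith

lemma log_le {L : ℝ} (hL : 0 < L) {x : ℝ} (hx : 0 < x) (hxN : x ≤ (NL L : ℝ) + 9) : Real.log x ≤ L + 5 := by
  rw [Real.log_le_iff_le_exp hx]
  exact hxN.trans (NL_le hL)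

lemma ww_le {L : ℝ} (hL : 0 < L) {n : ℕ} (hn : n ∈ Ioc 0 (NL L)) : ww L n ≤ (L + 5) * (1 / n) := by
  rw [mem_Ioc] at hn
  have hn0 : (0 : ℝ) < n := by exact_mod_cast hn.1
  have hnN : (n : ℝ) ≤ NL L := by exact_mod_cast hn.2
  unfold ww
  refine mul_le_mul ?_ (h35_wt_le _ _ _) (wt_nonneg _ _ _) (by linarith)
  exact vonMangoldt_le_log.trans (log_le hL hn0 (by linarith))

lemma ww_zero {L : ℝ} (hL : 0 < L) {n : ℕ} (hn : 0 < n) (h : (n : ℝ) ≤ Real.exp (L / 2)) : ww L n = 0 := by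
  unfold ww
  rw [h35_wt_zero hL hn, mul_zero]
  refine h.trans (Real.exp_le_exp.mpr ?_)
  exact le_add_of_nonneg_right (Real.log_natCast_nonneg 120)

lemma ww_le_exp {L : ℝ} (hL : 0 < L) {n : ℕ} (hn : n ∈ Ioc 0 (NL L)) :
    ww L n ≤ (L + 5) * Real.exp (-(L / 2)) := by
  rcases le_or_gt (n : ℝ) (Real.exp (L / 2)) with h | h
  · rw [ww_zero hL (mem_Ioc.mp hn).1 h]
    have := Real.exp_pos (-(L / 2))
    positivity
  · refine (ww_le hL hn).trans ?_
    refine mul_le_mul_of_nonneg_left ?_ (by linarith)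
    rw [Real.exp_neg, one_div]
    exact inv_anti₀ (Real.exp_pos _) h.le

/-- covering -/
lemma sum_cover {ι : Type} (B : Finset ℕ) (T : Finset ι) (S : ι → Finset ℕ) (f : ℕ → ℝ)
    (hf : ∀ n, 0 ≤ f n) (h : ∀ n ∈ B, ∃ t ∈ T, n ∈ S t) {M : ℝ} (hM : ∀ t ∈ T, ∑ n ∈ S t, f n ≤ M) :
    ∑ n ∈ B, f n ≤ #T * M := by
  classical
  have h1 : B ⊆ T.biUnion S := by
    intro n hn
    obtain ⟨t, ht, hnt⟩ := h n hn
    exact Finset.mem_biUnion.mpr ⟨t, ht, hnt⟩
  refine (Finset.sum_le_sum_of_subset_of_nonneg h1 fun n _ _ => hf n).trans ?_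
  have h2 : ∑ n ∈ T.biUnion S, f n ≤ ∑ t ∈ T, ∑ n ∈ S t, f n := by
    calc ∑ n ∈ T.biUnion S, f n ≤ ∑ n ∈ T.biUnion S, ∑ t ∈ T, (if n ∈ S t then f n else 0) := by
          refine Finset.sum_le_sum fun n hn => ?_
          obtain ⟨t, ht, hnt⟩ := Finset.mem_biUnion.mp hn
          have := Finset.single_le_sum (f := fun t => if n ∈ S t then f n else 0)
            (fun t _ => by split_ifs; exacts [hf n, le_rfl]) ht
          simpa [hnt] using this
      _ = ∑ t ∈ T, ∑ n ∈ T.biUnion S, (if n ∈ S t then f n else 0) := Finset.sum_comm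
      _ = ∑ t ∈ T, ∑ n ∈ S t, f n := by
          refine Finset.sum_congr rfl fun t ht => ?_
          rw [← Finset.sum_filter]
          refine Finset.sum_congr ?_ fun _ _ => rfl
          ext n
          rw [Finset.mem_filter]
          exact ⟨fun h => h.2, fun h => ⟨Finset.mem_biUnion.mpr ⟨t, ht, h⟩, h⟩⟩
  refine h2.trans ((Finset.sum_le_sum hM).trans ?_)
  rw [Finset.sum_const, nsmul_eq_mul]

/-- prime powers -/
lemma B1_le : ∃ C : ℝ, ∀ L : ℝ, 0 < L → ∑ n ∈ (AL L).filter (fun n => ¬ n.Prime), ww L n ≤ C := by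
  obtain ⟨C, hC, h⟩ := h35_tail_le
  refine ⟨C, fun L hL => ?_⟩
  have h1 : ∀ n ∈ Ioc 0 (NL L), (if ¬ n.Prime then ww L n else 0) ≤ h35_np n / n := by
    intro n hn
    by_cases hp : n.Prime
    · rw [if_neg (not_not.mpr hp)]
      exact div_nonneg (h35_np_nonneg _) (Nat.cast_nonneg _)
    · rw [if_pos hp]
      have e : h35_np n = vonMangoldt n := by unfold h35_np; rw [if_neg hp]
      rw [e]
      unfold ww
      rw [div_eq_mul_one_div]
      exact mul_le_mul_of_nonneg_left (h35_wt_le _ _ _) vonMangoldt_nonneg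
  have h2 : ∑ n ∈ (AL L).filter (fun n => ¬ n.Prime), ww L n ≤
      ∑ n ∈ (Ioc 0 (NL L)).filter (fun n => ¬ n.Prime), ww L n := by
    refine Finset.sum_le_sum_of_subset_of_nonneg ?_ fun n _ _ => ww_nonneg L n
    exact Finset.filter_subset_filter _ (Finset.filter_subset _ _)
  refine h2.trans ?_
  rw [Finset.sum_filter]
  refine (Finset.sum_le_sum h1).trans ?_
  rcases Nat.eq_zero_or_pos (NL L) with h0 | h0
  · rw [h0]; simpa using hC.le
  · rw [← Finset.sum_Ioc_consecutive _ (Nat.zero_le 1) h0]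
    have h3 := h 1 (NL L) le_rfl h0
    have h4 : ∑ n ∈ Ioc 0 1, h35_np n / n = 0 := by
      rw [show Ioc 0 1 = {1} from rfl, Finset.sum_singleton]
      unfold h35_np
      simp
    rw [h4, zero_add]
    simpa using h3

/-- the sum of the reciprocals -/
lemma sum_inv_le (N : ℕ) : ∑ n ∈ Ioc 0 N, (1 : ℝ) / (n : ℝ) ≤ 1 + Real.log (N + 7) := by
  have hlog : 0 ≤ Real.log ((N : ℝ) + 7) := Real.log_nonneg (by have := Nat.cast_nonneg (α := ℝ) N; linarith)
  rcases Nat.eq_zero_or_pos N with h0 | h0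
  · subst h0
    simp only [Finset.Ioc_self, Finset.sum_empty]
    linarith
  · rw [← Finset.sum_Ioc_consecutive _ (Nat.zero_le 1) h0]
    have h3 := h35_sum_inv_le le_rfl h0
    have h4 : ∑ n ∈ Ioc (0 : ℕ) 1, (1 : ℝ) / (n : ℝ) = 1 := by
      rw [show Ioc (0 : ℕ) 1 = {1} from rfl, Finset.sum_singleton]
      norm_num
    have h5 : Real.log N ≤ Real.log ((N : ℝ) + 7) :=
      Real.log_le_log (by exact_mod_cast h0) (by linarith)
    rw [h4]
    rw [Nat.cast_one, Real.log_one] at h3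
    linarith

/-- multiples of `r` -/
lemma sum_mult_le (N r : ℕ) (hr : 0 < r) :
    ∑ n ∈ (Ioc 0 N).filter (fun n => r ∣ n), (1 : ℝ) / n ≤ 1 / r * (1 + Real.log (N + 7)) := by
  classical
  have h1 : ∑ n ∈ (Ioc 0 N).filter (fun n => r ∣ n), (1 : ℝ) / n ≤
      ∑ k ∈ Ioc 0 N, 1 / (r : ℝ) * (1 / k) := by
    have e : ∑ k ∈ Ioc 0 N, 1 / (r : ℝ) * (1 / k) = ∑ n ∈ (Ioc 0 N).image (fun k => r * k), (1 : ℝ) / n := by
      rw [Finset.sum_image]
      · refine Finset.sum_congr rfl fun k _ => ?_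
        push_cast
        rw [one_div_mul_one_div]
      · intro a _ b _ hab
        exact Nat.eq_of_mul_eq_mul_left hr hab
    rw [e]
    refine Finset.sum_le_sum_of_subset_of_nonneg ?_ fun n _ _ => by positivity
    intro n hn
    rw [Finset.mem_filter, mem_Ioc] at hn
    obtain ⟨⟨h1, h2⟩, k, rfl⟩ := hn
    rw [Finset.mem_image]
    refine ⟨k, mem_Ioc.mpr ⟨?_, ?_⟩, rfl⟩
    · rcases Nat.eq_zero_or_pos k with h | h
      · rw [h, mul_zero] at h1; exact absurd h1 (lt_irrefl 0)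
      · exact h
    · exact (Nat.le_mul_of_pos_left k hr).trans h2
  refine h1.trans ?_
  rw [← Finset.mul_sum]
  exact mul_le_mul_of_nonneg_left (sum_inv_le N) (by positivity)

/-- shifted multiples of `r` -/
lemma ww_shift_le {L : ℝ} (hL : 0 < L) (r j : ℕ) (hr : 0 < r) (hj : j ≤ 2) :
    ∑ n ∈ (Ioc 0 (NL L)).filter (fun n => r ∣ n + j), ww L n ≤ (L + 5) * (3 / r * (L + 6)) := by
  classical
  have h1 : ∀ n ∈ (Ioc 0 (NL L)).filter (fun n => r ∣ n + j), ww L n ≤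
      (L + 5) * (3 * (1 / ((n + j : ℕ) : ℝ))) := by
    intro n hn
    have hn1 := (Finset.mem_filter.mp hn).1
    refine (ww_le hL hn1).trans (mul_le_mul_of_nonneg_left ?_ (by linarith))
    rw [mem_Ioc] at hn1
    have hn0 : (1 : ℝ) ≤ n := by exact_mod_cast hn1.1
    have hj0 : (j : ℝ) ≤ 2 := by exact_mod_cast hj
    have hj1 : (0 : ℝ) ≤ j := Nat.cast_nonneg j
    rw [mul_one_div, div_le_div_iff₀ (by linarith) (by push_cast; linarith)]
    push_cast
    linarith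
  refine (Finset.sum_le_sum h1).trans ?_
  rw [← Finset.mul_sum, ← Finset.mul_sum]
  refine mul_le_mul_of_nonneg_left ?_ (by linarith)
  have h2 : ∑ n ∈ (Ioc 0 (NL L)).filter (fun n => r ∣ n + j), 1 / ((n + j : ℕ) : ℝ) ≤
      ∑ n ∈ (Ioc 0 (NL L + 2)).filter (fun n => r ∣ n), (1 : ℝ) / n := by
    have e : ∑ n ∈ (Ioc 0 (NL L)).filter (fun n => r ∣ n + j), 1 / ((n + j : ℕ) : ℝ) =
        ∑ n ∈ ((Ioc 0 (NL L)).filter (fun n => r ∣ n + j)).image (fun n => n + j), (1 : ℝ) / n := by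
      rw [Finset.sum_image]
      intro a _ b _ hab
      exact Nat.add_right_cancel hab
    rw [e]
    refine Finset.sum_le_sum_of_subset_of_nonneg ?_ fun n _ _ => by positivity
    intro n hn
    obtain ⟨m, hm, rfl⟩ := Finset.mem_image.mp hn
    rw [Finset.mem_filter, mem_Ioc] at hm
    rw [Finset.mem_filter, mem_Ioc]
    exact ⟨⟨by omega, by omega⟩, hm.2⟩
  have h3 := sum_mult_le (NL L + 2) r hr
  have h4 : Real.log (((NL L + 2 : ℕ) : ℝ) + 7) ≤ L + 5 := by
    have h5 := NL_le hL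
    rw [Real.log_le_iff_le_exp (by positivity)]
    push_cast
    linarith
  calc 3 * _ ≤ 3 * (1 / (r : ℝ) * (1 + Real.log (((NL L + 2 : ℕ) : ℝ) + 7))) :=
        mul_le_mul_of_nonneg_left (h2.trans h3) (by norm_num)
    _ ≤ 3 * (1 / (r : ℝ) * (L + 6)) := by
        refine mul_le_mul_of_nonneg_left (mul_le_mul_of_nonneg_left (by linarith) (by positivity)) (by norm_num)
    _ = _ := by ring

lemma two_pow_omega_le (n : ℕ) : n ≠ 0 → 2 ^ #n.primeFactors ≤ n := by
  intro hn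
  calc 2 ^ #n.primeFactors ≤ ∏ p ∈ n.primeFactors, p :=
        Finset.pow_card_le_prod _ _ _ fun p hp => (Nat.prime_of_mem_primeFactors hp).two_le
    _ ≤ n := Nat.le_of_dvd (Nat.pos_of_ne_zero hn) (Nat.prod_primeFactors_dvd n)

lemma omega_le {n : ℕ} {x : ℝ} (hx0 : 0 ≤ x) (hx : (n : ℝ) ≤ Real.exp x) : (#n.primeFactors : ℝ) ≤ 2 * x := by
  rcases Nat.eq_zero_or_pos n with h | h
  · subst h
    simp only [Nat.primeFactors_zero, Finset.card_empty, Nat.cast_zero]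
    linarith
  · have h1 : ((2 : ℝ)) ^ #n.primeFactors ≤ Real.exp x := by
      refine le_trans ?_ hx
      exact_mod_cast two_pow_omega_le n h.ne'
    have h2 := Real.log_le_log (by positivity) h1
    rw [Real.log_pow, Real.log_exp] at h2
    have h3 := Real.log_two_gt_d9
    have h4 : (0 : ℝ) ≤ #n.primeFactors := Nat.cast_nonneg _
    nlinarith

lemma pow3_le {a : ℕ} {x : ℝ} (h : ((3 : ℝ)) ^ a ≤ Real.exp x) : (a : ℝ) ≤ x := by
  have h2 := Real.log_le_log (by positivity) h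
  rw [Real.log_pow, Real.log_exp] at h2
  have h3 : 1 < Real.log 3 := by
    rw [Real.lt_log_iff_exp_lt (by norm_num)]
    exact lt_trans Real.exp_one_lt_d9 (by norm_num)
  have h4 : (0 : ℝ) ≤ a := Nat.cast_nonneg _
  nlinarith

/-- the exponents -/
noncomputable def AI (L : ℝ) : Finset ℕ := (range (NL L + 3)).filter (fun a => 3 ^ a ≤ NL L + 2)

lemma mem_AI {L : ℝ} {a n : ℕ} (hn : n ≤ NL L) (h : 3 ^ a ≤ n + 2) : a ∈ AI L := by
  unfold AI
  rw [Finset.mem_filter, Finset.mem_range]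
  have : a < 3 ^ a := Nat.lt_pow_self (by norm_num)
  exact ⟨by omega, by omega⟩

lemma AI_le {L : ℝ} (hL : 0 < L) {a : ℕ} (ha : a ∈ AI L) : ((3 : ℝ)) ^ a ≤ Real.exp (L + 5) := by
  unfold AI at ha
  rw [Finset.mem_filter] at ha
  refine le_trans ?_ (NL_le hL)
  have : (((3 ^ a : ℕ)) : ℝ) ≤ ((NL L + 2 : ℕ) : ℝ) := by exact_mod_cast ha.2
  push_cast at this
  linarith

lemma AI_card {L : ℝ} (hL : 0 < L) : (#(AI L) : ℝ) ≤ L + 6 := by
  have h1 : AI L ⊆ range (⌊L + 5⌋₊ + 1) := by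
    intro a ha
    rw [Finset.mem_range, Nat.lt_succ_iff]
    exact Nat.le_floor (pow3_le (AI_le hL ha))
  have h2 := Finset.card_le_card h1
  rw [Finset.card_range] at h2
  calc (#(AI L) : ℝ) ≤ ((⌊L + 5⌋₊ + 1 : ℕ) : ℝ) := by exact_mod_cast h2
    _ = (⌊L + 5⌋₊ : ℝ) + 1 := by push_cast; ring
    _ ≤ L + 5 + 1 := by
        have := Nat.floor_le (show 0 ≤ L + 5 by linarith)
        linarith
    _ = L + 6 := by ring

lemma card_biUnion_le_real {α : Type} (s : Finset α) (f : α → Finset ℕ) {c : ℝ}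
    (h : ∀ a ∈ s, (#(f a) : ℝ) ≤ c) : (#(s.biUnion f) : ℝ) ≤ #s * c := by
  classical
  calc (#(s.biUnion f) : ℝ) ≤ ((∑ a ∈ s, #(f a) : ℕ) : ℝ) := by exact_mod_cast Finset.card_biUnion_le
    _ = ∑ a ∈ s, (#(f a) : ℝ) := by push_cast; rfl
    _ ≤ ∑ a ∈ s, c := Finset.sum_le_sum h
    _ = _ := by rw [Finset.sum_const, nsmul_eq_mul]

/-- the bad primes -/
noncomputable def RB (L : ℝ) (z : ℕ) : Finset ℕ :=
  (AI L).biUnion fun i => (3 ^ i - 1).primeFactors.filter (fun r => z < r)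

lemma RB_card {L : ℝ} (hL : 0 < L) (z : ℕ) : (#(RB L z) : ℝ) ≤ (L + 6) * (2 * (L + 5)) := by
  unfold RB
  refine (card_biUnion_le_real (AI L) _ (c := 2 * (L + 5)) fun i hi => ?_).trans ?_
  · refine le_trans ?_ (omega_le (n := 3 ^ i - 1) (by linarith) ?_)
    · exact_mod_cast Finset.card_le_card (Finset.filter_subset _ _)
    · refine le_trans ?_ (AI_le hL hi)
      have : 3 ^ i - 1 ≤ 3 ^ i := Nat.sub_le _ _
      exact_mod_cast this
  · exact mul_le_mul_of_nonneg_right (AI_card hL) (by linarith)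

open Classical in
/-- violators of condition (R) -/
noncomputable def B2 (L : ℝ) (z : ℕ) : Finset ℕ := (AL L).filter fun n =>
  ∃ i r : ℕ, 1 ≤ i ∧ r.Prime ∧ z < r ∧ 3 ^ i ≤ n + 2 ∧ r ∣ 3 ^ i - 1 ∧ (r ∣ n + 1 ∨ r ∣ n + 2)

lemma B2_le {L : ℝ} (hL : 6 ≤ L) {z : ℕ} (hz : L ^ 5 ≤ (z : ℝ)) : ∑ n ∈ B2 L z, ww L n ≤ 200 := by
  classical
  have hL0 : 0 < L := by linarith
  have hzpos : (0 : ℝ) < z := lt_of_lt_of_le (by positivity) hz
  have h1 := sum_cover (B2 L z) (RB L z ×ˢ ({1, 2} : Finset ℕ))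
    (fun t => (Ioc 0 (NL L)).filter (fun n => t.1 ∣ n + t.2)) (ww L) (ww_nonneg L) ?_
    (M := (L + 5) * (3 / L ^ 5 * (L + 6))) ?_
  · refine h1.trans ?_
    rw [Finset.card_product]
    have e2 : #({1, 2} : Finset ℕ) = 2 := rfl
    rw [e2]
    push_cast
    have h2 := RB_card hL0 z
    calc (#(RB L z) : ℝ) * 2 * ((L + 5) * (3 / L ^ 5 * (L + 6)))
        ≤ ((L + 6) * (2 * (L + 5))) * 2 * ((L + 5) * (3 / L ^ 5 * (L + 6))) := by
          refine mul_le_mul_of_nonneg_right (by linarith) (by positivity)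
      _ = 12 * ((L + 6) ^ 2 * (L + 5) ^ 2) / L ^ 5 := by ring
      _ ≤ 12 * ((2 * L) ^ 2 * (2 * L) ^ 2) / L ^ 5 := by
          refine div_le_div_of_nonneg_right ?_ (by positivity)
          refine mul_le_mul_of_nonneg_left ?_ (by norm_num)
          exact mul_le_mul (pow_le_pow_left₀ (by linarith) (by linarith) 2)
            (pow_le_pow_left₀ (by linarith) (by linarith) 2) (by positivity) (by positivity)
      _ = 192 / L := by field_simp; ring
      _ ≤ 200 := by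
          rw [div_le_iff₀ hL0]
          linarith
  · intro n hn
    unfold B2 at hn
    rw [Finset.mem_filter] at hn
    obtain ⟨hn1, i, r, hi, hr, hzr, h3, hdvd, hor⟩ := hn
    have hn2 : n ∈ Ioc 0 (NL L) := (Finset.mem_filter.mp hn1).1
    have hrRB : r ∈ RB L z := by
      unfold RB
      rw [Finset.mem_biUnion]
      refine ⟨i, mem_AI (mem_Ioc.mp hn2).2 h3, ?_⟩
      rw [Finset.mem_filter, Nat.mem_primeFactors]
      refine ⟨⟨hr, hdvd, ?_⟩, hzr⟩
      have : 3 ^ 1 ≤ 3 ^ i := Nat.pow_le_pow_right (by norm_num) hi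
      omega
    rcases hor with h | h
    · exact ⟨(r, 1), Finset.mem_product.mpr ⟨hrRB, by simp⟩, Finset.mem_filter.mpr ⟨hn2, h⟩⟩
    · exact ⟨(r, 2), Finset.mem_product.mpr ⟨hrRB, by simp⟩, Finset.mem_filter.mpr ⟨hn2, h⟩⟩
  · rintro ⟨r, j⟩ ht
    rw [Finset.mem_product] at ht
    have hzr : z < r := by
      have := ht.1
      unfold RB at this
      rw [Finset.mem_biUnion] at this
      obtain ⟨i, _, hi⟩ := this
      exact (Finset.mem_filter.mp hi).2
    have hj : j ≤ 2 := by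
      have := ht.2
      simp only [Finset.mem_insert, Finset.mem_singleton] at this
      omega
    refine (ww_shift_le hL0 r j (by omega) hj).trans ?_
    refine mul_le_mul_of_nonneg_left (mul_le_mul_of_nonneg_right ?_ (by linarith)) (by linarith)
    have hzr' : (z : ℝ) ≤ r := by exact_mod_cast hzr.le
    exact div_le_div_of_nonneg_left (by norm_num) (by positivity) (hz.trans hzr')

end Pool.Agent.helper93.AU
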