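import Pool.Agent.helper93.AU.NT4

/-!
au:NT, part 5: violators of condition (N).
-/

namespace Pool.Agent.helper93.AU

open Finset Real ArithmeticFunction
open Pool.Agent.helper39.MT

/-- the integer of which the Sylow number is a divisor -/
def WW (a d m g e : ℕ) : ℕ := d * 3 ^ a * g * ((d * e + 2) / (d * m))

/-- all primes which may violate condition (N) -/
noncomputable def SN (L : ℝ) : Finset ℕ :=
  (AI L).biUnion fun a => ({1, 2} : Finset ℕ).biUnion fun d => ({1, 2, 3} : Finset ℕ).biUnion fun m =>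
    (3 ^ a + m).divisors.biUnion fun g => (3 ^ a + m).divisors.biUnion fun e =>
      (WW a d m g e).divisors.biUnion fun k => (k - 1).primeFactors

lemma div_le_self' (d e m : ℕ) (hd : 0 < d) (hm : 0 < m) : (d * e + 2) / (d * m) ≤ e + 2 := by
  have h1 : (d * e + 2) / (d * m) ≤ (d * e + 2) / d :=
    Nat.div_le_div_left (Nat.le_mul_of_pos_right d hm) hd
  refine h1.trans ?_
  rw [Nat.div_le_iff_le_mul_add_pred hd]
  nlinarith

lemma SN_card : ∃ C : ℝ, 1 ≤ C ∧ ∀ L : ℝ, 6 ≤ L → (#(SN L) : ℝ) ≤ C * L ^ 2 * Real.exp (L / 4) := by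
  classical
  obtain ⟨C, hC, hdiv⟩ := Pool.Agent.helper47.RA.card_divisors_le (1 / 100) (by norm_num)
  refine ⟨1728 * C ^ 3, ?_, fun L hL => ?_⟩
  · have : 1 ≤ C ^ 3 := one_le_pow₀ hC
    linarith
  have hL0 : 0 < L := by linarith
  have hC0 : 0 < C := by linarith
  -- the divisors of `3 ^ a + m`
  have h3 : ∀ a ∈ AI L, ∀ m ∈ ({1, 2, 3} : Finset ℕ), (((3 ^ a + m : ℕ)) : ℝ) ≤ Real.exp (L + 5) := by
    intro a ha m hm
    refine le_trans ?_ (NL_le hL0)
    have h1 := ha
    unfold AI at h1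
    rw [Finset.mem_filter] at h1
    have h2 : m ≤ 3 := by
      simp only [Finset.mem_insert, Finset.mem_singleton] at hm
      omega
    have h4 : 3 ^ a + m ≤ NL L + 5 := by omega
    have h5 : (((3 ^ a + m : ℕ)) : ℝ) ≤ ((NL L + 5 : ℕ) : ℝ) := by exact_mod_cast h4
    refine h5.trans ?_
    push_cast
    linarith
  set T : ℝ := C * Real.exp ((L + 5) / 100) with hT
  have hT0 : 0 < T := by positivity
  have htau : ∀ a ∈ AI L, ∀ m ∈ ({1, 2, 3} : Finset ℕ), (#(3 ^ a + m).divisors : ℝ) ≤ T := by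
    intro a ha m hm
    refine (hdiv (3 ^ a + m) (by positivity)).trans ?_
    rw [hT]
    refine mul_le_mul_of_nonneg_left ?_ hC0.le
    refine (Real.rpow_le_rpow (Nat.cast_nonneg _) (h3 a ha m hm) (by norm_num)).trans ?_
    rw [← Real.exp_mul]
    refine le_of_eq ?_
    congr 1
    ring
  -- the big number
  have hW : ∀ a ∈ AI L, ∀ d ∈ ({1, 2} : Finset ℕ), ∀ m ∈ ({1, 2, 3} : Finset ℕ),
      ∀ g ∈ (3 ^ a + m).divisors, ∀ e ∈ (3 ^ a + m).divisors,
      ((WW a d m g e : ℕ) : ℝ) ≤ Real.exp (3 * L + 16) := by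
    intro a ha d hd m hm g hg e he
    have hdd : 0 < d ∧ d ≤ 2 := by
      simp only [Finset.mem_insert, Finset.mem_singleton] at hd
      omega
    have hmm : 0 < m ∧ m ≤ 3 := by
      simp only [Finset.mem_insert, Finset.mem_singleton] at hm
      omega
    have h1 := ha
    unfold AI at h1
    rw [Finset.mem_filter] at h1
    have hg1 : g ≤ NL L + 9 := by
      have := Nat.divisor_le hg
      omega
    have he1 : e + 2 ≤ NL L + 9 := by
      have := Nat.divisor_le he
      omega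
    have h2 := div_le_self' d e m hdd.1 hmm.1
    have h4 : WW a d m g e ≤ 2 * (NL L + 9) * (NL L + 9) * (NL L + 9) := by
      unfold WW
      exact Nat.mul_le_mul (Nat.mul_le_mul (Nat.mul_le_mul hdd.2 (by omega)) hg1) (h2.trans he1)
    have h5 := NL_le hL0
    have h6 : (0 : ℝ) ≤ (NL L : ℝ) + 9 := by positivity
    calc ((WW a d m g e : ℕ) : ℝ) ≤ ((2 * (NL L + 9) * (NL L + 9) * (NL L + 9) : ℕ) : ℝ) := by
          exact_mod_cast h4
      _ = 2 * ((NL L : ℝ) + 9) ^ 3 := by push_cast; ring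
      _ ≤ Real.exp 1 * (Real.exp (L + 5)) ^ 3 := by
          refine mul_le_mul ?_ (pow_le_pow_left₀ h6 h5 3) (by positivity) (Real.exp_pos _).le
          have := Real.exp_one_gt_d9
          linarith
      _ = Real.exp (3 * L + 16) := by
          rw [← Real.exp_nat_mul, ← Real.exp_add]
          congr 1
          push_cast
          ring
  set T' : ℝ := C * Real.exp ((3 * L + 16) / 100) with hT'
  have hT'0 : 0 < T' := by positivity
  have htauW : ∀ a ∈ AI L, ∀ d ∈ ({1, 2} : Finset ℕ), ∀ m ∈ ({1, 2, 3} : Finset ℕ),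
      ∀ g ∈ (3 ^ a + m).divisors, ∀ e ∈ (3 ^ a + m).divisors,
      (#(WW a d m g e).divisors : ℝ) ≤ T' := by
    intro a ha d hd m hm g hg e he
    rcases Nat.eq_zero_or_pos (WW a d m g e) with h0 | h0
    · rw [h0]
      simp only [Nat.divisors_zero, Finset.card_empty, Nat.cast_zero]
      exact hT'0.le
    · refine (hdiv _ h0).trans ?_
      rw [hT']
      refine mul_le_mul_of_nonneg_left ?_ hC0.le
      refine (Real.rpow_le_rpow (Nat.cast_nonneg _) (hW a ha d hd m hm g hg e he) (by norm_num)).trans ?_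
      rw [← Real.exp_mul]
      refine le_of_eq ?_
      congr 1
      ring
  have hom : ∀ a ∈ AI L, ∀ d ∈ ({1, 2} : Finset ℕ), ∀ m ∈ ({1, 2, 3} : Finset ℕ),
      ∀ g ∈ (3 ^ a + m).divisors, ∀ e ∈ (3 ^ a + m).divisors, ∀ k ∈ (WW a d m g e).divisors,
      (#(k - 1).primeFactors : ℝ) ≤ 2 * (3 * L + 16) := by
    intro a ha d hd m hm g hg e he k hk
    refine omega_le (by linarith) (le_trans ?_ (hW a ha d hd m hm g hg e he))
    have := Nat.divisor_le hk
    exact_mod_cast (by omega : k - 1 ≤ WW a d m g e)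
  unfold SN
  have c2 : (#({1, 2} : Finset ℕ) : ℝ) = 2 := by
    have : #({1, 2} : Finset ℕ) = 2 := rfl
    rw [this]; norm_num
  have c3 : (#({1, 2, 3} : Finset ℕ) : ℝ) = 3 := by
    have : #({1, 2, 3} : Finset ℕ) = 3 := rfl
    rw [this]; norm_num
  have hnn : 0 ≤ T' * (2 * (3 * L + 16)) := by positivity
  have h1 := card_biUnion_le_real (AI L) (fun a => ({1, 2} : Finset ℕ).biUnion fun d =>
    ({1, 2, 3} : Finset ℕ).biUnion fun m =>
    (3 ^ a + m).divisors.biUnion fun g => (3 ^ a + m).divisors.biUnion fun e =>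
      (WW a d m g e).divisors.biUnion fun k => (k - 1).primeFactors)
    (c := 2 * (3 * (T * (T * (T' * (2 * (3 * L + 16))))))) ?_
  · refine h1.trans ?_
    have hAI := AI_card hL0
    have e1 : T * T * T' = C ^ 3 * Real.exp ((5 * L + 26) / 100) := by
      rw [hT, hT']
      calc C * Real.exp ((L + 5) / 100) * (C * Real.exp ((L + 5) / 100)) *
            (C * Real.exp ((3 * L + 16) / 100)) = C ^ 3 * (Real.exp ((L + 5) / 100) *
              Real.exp ((L + 5) / 100) * Real.exp ((3 * L + 16) / 100)) := by ring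
        _ = _ := by
            rw [← Real.exp_add, ← Real.exp_add]
            congr 2
            ring
    calc (#(AI L) : ℝ) * (2 * (3 * (T * (T * (T' * (2 * (3 * L + 16)))))))
        ≤ (L + 6) * (2 * (3 * (T * (T * (T' * (2 * (3 * L + 16))))))) :=
          mul_le_mul_of_nonneg_right hAI (by positivity)
      _ = 12 * ((L + 6) * (3 * L + 16)) * (T * T * T') := by ring
      _ = 12 * ((L + 6) * (3 * L + 16)) * (C ^ 3 * Real.exp ((5 * L + 26) / 100)) := by rw [e1]
      _ ≤ 12 * ((2 * L) * (6 * L)) * (C ^ 3 * Real.exp (L / 4)) := by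
          refine mul_le_mul ?_ ?_ (by positivity) (by positivity)
          · refine mul_le_mul_of_nonneg_left ?_ (by norm_num)
            exact mul_le_mul (by linarith) (by linarith) (by linarith) (by linarith)
          · refine mul_le_mul_of_nonneg_left (Real.exp_le_exp.mpr (by linarith)) (by positivity)
      _ ≤ 1728 * C ^ 3 * L ^ 2 * Real.exp (L / 4) := by
          have : 0 ≤ C ^ 3 * L ^ 2 * Real.exp (L / 4) := by positivity
          nlinarith
  · intro a ha
    have := card_biUnion_le_real ({1, 2} : Finset ℕ) (fun d =>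
      ({1, 2, 3} : Finset ℕ).biUnion fun m =>
      (3 ^ a + m).divisors.biUnion fun g => (3 ^ a + m).divisors.biUnion fun e =>
        (WW a d m g e).divisors.biUnion fun k => (k - 1).primeFactors)
      (c := 3 * (T * (T * (T' * (2 * (3 * L + 16)))))) ?_
    · rwa [c2] at this
    intro d hd
    have := card_biUnion_le_real ({1, 2, 3} : Finset ℕ) (fun m =>
      (3 ^ a + m).divisors.biUnion fun g => (3 ^ a + m).divisors.biUnion fun e =>
        (WW a d m g e).divisors.biUnion fun k => (k - 1).primeFactors)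
      (c := T * (T * (T' * (2 * (3 * L + 16))))) ?_
    · rwa [c3] at this
    intro m hm
    refine (card_biUnion_le_real (3 ^ a + m).divisors (fun g =>
      (3 ^ a + m).divisors.biUnion fun e =>
        (WW a d m g e).divisors.biUnion fun k => (k - 1).primeFactors)
      (c := T * (T' * (2 * (3 * L + 16)))) ?_).trans
      (mul_le_mul_of_nonneg_right (htau a ha m hm) (by positivity))
    intro g hg
    refine (card_biUnion_le_real (3 ^ a + m).divisors (fun e =>
        (WW a d m g e).divisors.biUnion fun k => (k - 1).primeFactors)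
      (c := T' * (2 * (3 * L + 16))) ?_).trans
      (mul_le_mul_of_nonneg_right (htau a ha m hm) (by positivity))
    intro e he
    refine (card_biUnion_le_real (WW a d m g e).divisors (fun k => (k - 1).primeFactors)
      (c := 2 * (3 * L + 16)) (hom a ha d hd m hm g hg e he)).trans
      (mul_le_mul_of_nonneg_right (htauW a ha d hd m hm g hg e he) (by positivity))

open Classical in
/-- violators of condition (N) -/
noncomputable def B3 (L : ℝ) : Finset ℕ := (AL L).filter fun l => l.Prime ∧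
  ∃ a d' m e' h' u n : ℕ, 3 ^ a ≤ l + 2 ∧ (d' = 1 ∨ d' = 2) ∧ 1 ≤ m ∧ m ≤ 3 ∧
    0 < e' ∧ 0 < h' ∧ 0 < u ∧ d' * e' + 2 = d' * m * h' ∧ u * e' ∣ 3 ^ a + m ∧
    n ∣ d' * 3 ^ a * u * e' * h' ∧ n % l = 1 ∧ n ≠ 1

lemma B3_subset (L : ℝ) : B3 L ⊆ SN L := by
  classical
  intro l hl
  unfold B3 at hl
  rw [Finset.mem_filter] at hl
  obtain ⟨hl1, hlp, a, d', m, e', h', u, n, h1, h2, h3, h4, h5, h6, h7, h8, h9, h10, h11, h12⟩ := hl
  have hlN : l ≤ NL L := (mem_Ioc.mp (Finset.mem_filter.mp hl1).1).2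
  unfold SN
  have hd' : 0 < d' := by omega
  have hh' : (d' * e' + 2) / (d' * m) = h' := by
    rw [h8]
    exact Nat.mul_div_cancel_left h' (Nat.mul_pos hd' (by omega))
  have hWne : d' * 3 ^ a * u * e' * h' ≠ 0 := by positivity
  refine Finset.mem_biUnion.mpr ⟨a, mem_AI hlN h1, ?_⟩
  refine Finset.mem_biUnion.mpr ⟨d', by simpa using h2, ?_⟩
  refine Finset.mem_biUnion.mpr ⟨m, ?_, ?_⟩
  · simp only [Finset.mem_insert, Finset.mem_singleton]
    omega
  have h3a : 3 ^ a + m ≠ 0 := by positivity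
  refine Finset.mem_biUnion.mpr ⟨u * e', Nat.mem_divisors.mpr ⟨h9, h3a⟩, ?_⟩
  refine Finset.mem_biUnion.mpr ⟨e', Nat.mem_divisors.mpr ⟨(Dvd.intro_left u rfl).trans h9, h3a⟩, ?_⟩
  refine Finset.mem_biUnion.mpr ⟨n, ?_, ?_⟩
  · rw [Nat.mem_divisors]
    unfold WW
    rw [hh']
    have e : d' * 3 ^ a * (u * e') * h' = d' * 3 ^ a * u * e' * h' := by ring
    rw [e]
    exact ⟨h10, hWne⟩
  · rw [Nat.mem_primeFactors]
    have hn0 : n ≠ 0 := by
      rintro rfl
      exact hWne (zero_dvd_iff.mp h10)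
    refine ⟨hlp, ?_, by omega⟩
    have h13 : n ≡ 1 [MOD l] := by
      unfold Nat.ModEq
      rw [h11, Nat.mod_eq_of_lt hlp.one_lt]
    exact (Nat.modEq_iff_dvd' (by omega)).mp h13.symm

lemma B3_le : ∃ C L₁ : ℝ, ∀ L : ℝ, L₁ ≤ L → ∑ n ∈ B3 L, ww L n ≤ C := by
  classical
  obtain ⟨C, hC, h⟩ := SN_card
  obtain ⟨L₁, h1⟩ := pow_le_exp_ev 3
  refine ⟨2 * C, max L₁ 6, fun L hL => ?_⟩
  have hL1 : L₁ ≤ L := (le_max_left _ _).trans hL
  have hL6 : 6 ≤ L := (le_max_right _ _).trans hL
  have hL0 : 0 < L := by linarith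
  have h2 : ∀ n ∈ B3 L, ww L n ≤ (L + 5) * Real.exp (-(L / 2)) := fun n hn =>
    ww_le_exp hL0 (Finset.mem_filter.mp (Finset.mem_filter.mp hn).1).1
  refine (Finset.sum_le_sum h2).trans ?_
  rw [Finset.sum_const, nsmul_eq_mul]
  have h3 : (#(B3 L) : ℝ) ≤ C * L ^ 2 * Real.exp (L / 4) := by
    refine le_trans ?_ (h L hL6)
    exact_mod_cast Finset.card_le_card (B3_subset L)
  have hC0 : 0 < C := by linarith
  calc (#(B3 L) : ℝ) * ((L + 5) * Real.exp (-(L / 2)))
      ≤ (C * L ^ 2 * Real.exp (L / 4)) * ((2 * L) * Real.exp (-(L / 2))) := by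
        refine mul_le_mul h3 ?_ (by positivity) (by positivity)
        exact mul_le_mul_of_nonneg_right (by linarith) (Real.exp_pos _).le
    _ = 2 * C * (L ^ 3 * (Real.exp (L / 4) * Real.exp (-(L / 2)))) := by ring
    _ ≤ 2 * C * 1 := by
        refine mul_le_mul_of_nonneg_left ?_ (by linarith)
        rw [← Real.exp_add]
        calc L ^ 3 * Real.exp (L / 4 + -(L / 2)) ≤ Real.exp (L / 120) * Real.exp (L / 4 + -(L / 2)) :=
              mul_le_mul_of_nonneg_right (h1 L hL1) (Real.exp_pos _).le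
          _ = Real.exp (L / 120 + (L / 4 + -(L / 2))) := (Real.exp_add _ _).symm
          _ ≤ 1 := by
              rw [Real.exp_le_one_iff]
              linarith
    _ = 2 * C := mul_one _

end Pool.Agent.helper93.AU
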