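import Pool.Agent.helper2.AU.SpecX

/-!
# Project au, module XS: degree of the conorm
-/

namespace Pool.Agent.helper53.AU

open scoped Classical IntermediateField
open Polynomial (aeval)

/-- an element with a nonzero order is transcendental -/
theorem XS_trans {k F : Type} [Field k] [IsAlgClosed k] [Field F] [Algebra k F] (P : Place k F) (u : F)
    (hu : P.ord u ≠ 0) : Transcendental k u := by
  intro halg
  have hu0 : u ≠ 0 := by
    rintro rfl
    exact hu P.ord_zero
  have hint : IsIntegral k u := halg.isIntegral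
  have hdeg := IsAlgClosed.degree_eq_one_of_irreducible k (minpoly.irreducible hint)
  obtain ⟨c, hc⟩ := minpoly.mem_range_of_degree_eq_one k u hdeg
  have hc0 : c ≠ 0 := by
    rintro rfl
    rw [map_zero] at hc
    exact hu0 hc.symm
  apply hu
  rw [← hc]
  exact P.ord_const c hc0

/-- the fibres -/
theorem XS_fibre (hF : XF_stmt) (h5 : QR5_stmt) (h3 : QZ3_stmt) (h4 : QV4_stmt)
    (k F : Type) [Field k] [IsAlgClosed k] [Field F] [Algebra k F] (hff : IsFF k F)
    (H : Subgroup (F ≃ₐ[k] F)) [Fintype H]
    (π : Place k F → Place k (IntermediateField.fixedField H)) (e : Place k F → ℕ)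
    (hb : ∀ P, Below (IntermediateField.fixedField H) P (π P) (e P))
    (Q : Place k (IntermediateField.fixedField H)) :
    {P : Place k F | π P = Q}.Finite ∧
      ∑ᶠ P : Place k F, (if π P = Q then (e P : ℤ) else 0) = (Fintype.card H : ℤ) := by
  obtain ⟨hffE, _, hdeg⟩ := hF k F hff H
  obtain ⟨C, hC⟩ := h5 k _ hffE Q
  obtain ⟨u, huR, hu0, huord⟩ := hC (C + 1) (by omega)
  have hut : Transcendental k u := XS_trans Q u (by rw [huord]; omega)
  obtain ⟨huFt, hdegu⟩ := hdeg u hut
  have huF0 : (u : F) ≠ 0 := by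
    intro h
    exact hu0 (by exact_mod_cast h)
  -- the poles in `E`
  have hge : ∀ P' : Place k (IntermediateField.fixedField H), P' ≠ Q → 0 ≤ P'.ord u := fun P' hP' =>
    (huR P' hP').le hu0
  have hE := (h3 k _ hffE u hut).2
  rw [finsum_eq_single _ Q (fun P' hP' => by have := hge P' hP'; omega), huord] at hE
  have hF2 := (h3 k F hff (u : F) huFt).2
  rw [hdegu] at hF2
  have hval : ∀ P : Place k F, max (-P.ord (u : F)) 0 = (if π P = Q then (e P : ℤ) else 0) * (C + 1 : ℕ) := by
    intro P
    rw [(hb P).2 u]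
    have he := (hb P).1
    split_ifs with h
    · rw [h, huord]
      have : 0 ≤ (e P : ℤ) * ((C + 1 : ℕ) : ℤ) := by positivity
      rw [mul_neg, neg_neg]
      exact max_eq_left this
    · have h1 := hge (π P) h
      have h2 : 0 ≤ (e P : ℤ) * (π P).ord u := mul_nonneg (by positivity) h1
      rw [zero_mul]
      omega
  have hfin : {P : Place k F | π P = Q}.Finite := by
    refine (h4 k F hff (u : F) huF0).subset fun P hP => ?_
    rw [Function.mem_support, (hb P).2 u, show π P = Q from hP, huord]
    have he := (hb P).1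
    have : 0 < (e P : ℤ) * ((C + 1 : ℕ) : ℤ) := by positivity
    rw [mul_neg]
    omega
  refine ⟨hfin, ?_⟩
  have hfs : (Function.support fun P : Place k F => (if π P = Q then (e P : ℤ) else 0)).Finite := by
    refine hfin.subset fun P hP => ?_
    rw [Function.mem_support] at hP
    by_contra h
    exact hP (if_neg h)
  have e1 : ∑ᶠ P : Place k F, max (-P.ord (u : F)) 0 =
      (∑ᶠ P : Place k F, (if π P = Q then (e P : ℤ) else 0)) * ((C + 1 : ℕ) : ℤ) := by
    rw [finsum_mul' _ _ hfs]
    exact finsum_congr hval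
  rw [e1] at hF2
  have hpos : (0 : ℤ) < ((C + 1 : ℕ) : ℤ) := by positivity
  have hC1 : ((C + 1 : ℕ) : ℤ) = (degx k u : ℤ) := by
    rw [← hE]
    omega
  rw [Nat.cast_mul, ← hC1] at hF2
  exact mul_right_cancel₀ hpos.ne' hF2

theorem XS (hF : XF_stmt) (h5 : QR5_stmt) (h3 : QZ3_stmt) (h4 : QV4_stmt) : XS_stmt := by
  intro k F _ _ _ _ hff H _ π e hb a ha
  have hfib := XS_fibre hF h5 h3 h4 k F hff H π e hb
  have hsub : (Function.support fun P : Place k F => (e P : ℤ) * a (π P)) ⊆
      ((ha.toFinset.biUnion fun Q => (hfib Q).1.toFinset : Finset (Place k F)) : Set (Place k F)) := by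
    intro P hP
    rw [Function.mem_support] at hP
    rw [Finset.mem_coe, Finset.mem_biUnion]
    refine ⟨π P, ?_, ?_⟩
    · rw [Set.Finite.mem_toFinset, Function.mem_support]
      exact right_ne_zero_of_mul hP
    · rw [Set.Finite.mem_toFinset]
      rfl
  refine ⟨(Finset.finite_toSet _).subset hsub, ?_⟩
  rw [finsum_eq_sum_of_support_subset _ hsub, Finset.sum_biUnion]
  · rw [finsum_eq_sum_of_support_subset a (s := ha.toFinset) (by rw [Set.Finite.coe_toFinset]), Finset.mul_sum]
    refine Finset.sum_congr rfl fun Q _ => ?_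
    have hQ : ∑ P ∈ (hfib Q).1.toFinset, (if π P = Q then (e P : ℤ) else 0) = (Fintype.card H : ℤ) := by
      rw [← finsum_eq_sum_of_support_subset (fun P : Place k F => (if π P = Q then (e P : ℤ) else 0))
        (s := (hfib Q).1.toFinset)]
      · exact (hfib Q).2
      · intro P hP
        rw [Function.mem_support] at hP
        rw [Set.Finite.coe_toFinset]
        by_contra h
        exact hP (if_neg h)
    calc _ = ∑ P ∈ (hfib Q).1.toFinset, (if π P = Q then (e P : ℤ) else 0) * a Q := by
          refine Finset.sum_congr rfl fun P hP => ?_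
          rw [Set.Finite.mem_toFinset] at hP
          have hP' : π P = Q := hP
          rw [if_pos hP', hP']
      _ = _ := by rw [← Finset.sum_mul, hQ]
  · intro Q _ Q' _ hQQ
    rw [Function.onFun, Finset.disjoint_left]
    intro P hP hP'
    rw [Set.Finite.mem_toFinset] at hP hP'
    exact hQQ ((show π P = Q from hP).symm.trans hP')

end Pool.Agent.helper53.AU
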